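import Pool.Agent.Helper21.EQ.Def

set_option autoImplicit false

open MeasureTheory Filter UpperHalfPlane Pool.Agent.Y818.IC

namespace Pool.Agent.Helper21.EQ

/-- pigeonhole for infinite sets of natural numbers -/
theorem pig {ι : Type*} (S : Finset ι) (I : Set ℕ) (hI : I.Infinite) (P : ι → ℕ → Prop)
    (h : ∀ N ∈ I, ∃ s ∈ S, P s N) : ∃ s ∈ S, {N | N ∈ I ∧ P s N}.Infinite := by
  by_contra hc
  push Not at hc
  apply hI
  have h1 : I ⊆ ⋃ s ∈ S, {N | N ∈ I ∧ P s N} := by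
    intro N hN
    obtain ⟨s, hs, hp⟩ := h N hN
    simp only [Set.mem_iUnion]
    exact ⟨s, hs, hN, hp⟩
  refine Set.Finite.subset ?_ h1
  refine Set.Finite.biUnion S.finite_toSet fun s hs => ?_
  exact hc s hs

/-- the ambient variety as a special subvariety -/
def top {n : ℕ} (D : ℤ) (hD : D < 0) (c : Fin n → ℂ) (hc : ∀ k, c k ∈ sing D) : Sub n where
  r := n
  blk := fun k => some k
  surj := fun b => ⟨b, rfl⟩
  c := c
  cm := fun k => ⟨D, hD, hc k⟩
  g := fun _ => 1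
  det := fun _ => by simp

theorem top_strong {n : ℕ} (D : ℤ) (hD : D < 0) (c : Fin n → ℂ) (hc : ∀ k, c k ∈ sing D) :
    (top D hD c hc).Strong := fun k => by simp [top]

theorem mem_top {n : ℕ} (D : ℤ) (hD : D < 0) (c : Fin n → ℂ) (hc : ∀ k, c k ∈ sing D)
    (x : Fin n → ℂ) (hx : ∀ k, ∃ τ : ℍ, x k = j τ) : x ∈ (top D hD c hc).carrier := by
  choose τ hτ using hx
  refine ⟨τ, fun k => ⟨fun h => ?_, fun b hb => ?_⟩⟩
  · simp [top] at h
  · have hb' : k = b := Option.some.inj hb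
    subst hb'
    refine ⟨τ k, ?_, hτ k⟩
    simp [Moebius, top]

theorem sing_j {D : ℤ} {z : ℂ} (h : z ∈ sing D) : ∃ τ : ℍ, z = j τ := by
  obtain ⟨τ, -, h⟩ := h
  exact ⟨τ, h⟩

/-- **Uniformity.**  For large `|D|` each special point has an orbit which is nearly equidistributed
in one of the special subvarieties which contain the point. -/
theorem claimA {n : ℕ} {F : IntermediateField ℚ ℂ} {m : Sub n → Measure (Fin n → ℂ)}
    (hK : Known F n m) (k : ℕ) (G : Finset ((Fin n → ℂ) → ℝ))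
    (hG : ∀ f ∈ G, Continuous f ∧ HasCompactSupport f) {ε : ℝ} (hε : 0 < ε) :
    ∃ B : ℕ, ∀ (D : ℤ) (x : Fin n → ℂ), Good k D → B ≤ D.natAbs → (∀ l, x l ∈ sing D) →
      ∃ Z : Sub n, Z.Strong ∧ x ∈ Z.carrier ∧
        ∀ f ∈ G, |avg (orb F.fixingSubgroup x) f - ∫ w, f w ∂(m Z)| < ε := by
  classical
  by_contra hc
  push Not at hc
  choose D x hgood hB hx hbad using hc
  have hneg : ∀ N, D N < 0 := fun N => (hgood N).1.1
  -- the least dimension of a special subvariety with infinitely many of the points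
  let P : ℕ → Prop := fun r => ∃ Z : Sub n, Z.Strong ∧ Z.r = r ∧ {N | x N ∈ Z.carrier}.Infinite
  have hP : ∃ r, P r := by
    refine ⟨n, top (D 0) (hneg 0) (x 0) (hx 0), top_strong _ _ _ _, rfl, ?_⟩
    have : {N | x N ∈ (top (D 0) (hneg 0) (x 0) (hx 0)).carrier} = Set.univ := by
      ext N
      simp only [Set.mem_ofPred_eq, Set.mem_univ, iff_true]
      exact mem_top _ _ _ _ _ fun l => sing_j (hx N l)
    rw [this]
    exact Set.infinite_univ
  obtain ⟨Z, hZs, hZr, hZi⟩ := Nat.find_spec hP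
  have hmin : ∀ Z' : Sub n, Z'.Strong → Z'.r < Z.r → {N | x N ∈ Z'.carrier}.Finite := by
    intro Z' hs hr
    by_contra hinf
    exact Nat.find_min hP (m := Z'.r) (by rw [← hZr]; exact hr) ⟨Z', hs, rfl, hinf⟩
  -- fixed primes and a fixed test function
  obtain ⟨pq, hpq, hI1⟩ := pig ((Finset.range (k + 1)) ×ˢ (Finset.range (k + 1))) _ hZi
    (fun pq N => pq.1 ≠ pq.2 ∧ Splits pq.1 (D N) ∧ Splits pq.2 (D N)) (by
      intro N _
      obtain ⟨p, q, hpq, hp, hq, hsp, hsq⟩ := (hgood N).2.1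
      exact ⟨(p, q), by simp; omega, hpq, hsp, hsq⟩)
  obtain ⟨f, hf, hI2⟩ := pig G _ hI1
    (fun f N => ε ≤ |avg (orb F.fixingSubgroup (x N)) f - ∫ w, f w ∂(m Z)|) (by
      intro N hN
      obtain ⟨f, hf, h⟩ := hbad N Z hZs hN.1
      exact ⟨f, hf, h⟩)
  set I := {N | N ∈ {N | N ∈ {N | x N ∈ Z.carrier} ∧ (pq.1 ≠ pq.2 ∧ Splits pq.1 (D N) ∧
    Splits pq.2 (D N))} ∧ ε ≤ |avg (orb F.fixingSubgroup (x N)) f - ∫ w, f w ∂(m Z)|} with hI
  obtain ⟨φ, hφm, hφI⟩ : ∃ φ : ℕ → ℕ, StrictMono φ ∧ ∀ i, φ i ∈ I :=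
    ⟨Nat.nth (· ∈ I), Nat.nth_strictMono hI2, fun i => Nat.nth_mem_of_infinite hI2 i⟩
  have hk : 0 < k := by
    obtain ⟨p, q, -, hp, -, hsp, -⟩ := (hgood 0).2.1
    exact lt_of_lt_of_le hsp.1.pos hp
  have hlim := hK.khayutin Z hZs pq.1 pq.2 (1 / k) (hφI 0).1.2.1 (by positivity)
    (fun i => x (φ i)) (fun i => D (φ i))
    (fun i => ⟨(hgood _).1, (hφI i).1.2.2.1, (hφI i).1.2.2.2, (hgood _).2.2⟩)
    (fun i l => hx _ l)
    (by
      refine tendsto_atTop_mono (fun i => ?_) tendsto_id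
      exact (hφm.id_le i).trans (hB (φ i)))
    (fun i => (hφI i).1.1)
    (fun Z' hs hr => by
      have := hmin Z' hs hr
      exact this.preimage (f := φ) hφm.injective.injOn)
    f (hG f hf).1 (hG f hf).2
  have h2 : Tendsto (fun i => |avg (orb F.fixingSubgroup (x (φ i))) f - ∫ w, f w ∂(m Z)|) atTop
      (nhds 0) := by
    have := (hlim.sub_const (∫ w, f w ∂(m Z))).abs
    simpa using this
  obtain ⟨i, hi⟩ := (h2.eventually (gt_mem_nhds hε)).exists
  exact absurd (hφI i).2 (not_le.2 hi)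

end Pool.Agent.Helper21.EQ
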