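import Pool.Agent.Helper21.EQ.Mix

/-!
# CES: Cesàro means
-/

set_option autoImplicit false

open Filter

namespace Pool.Agent.Helper21.EQ

theorem ces_row (b : ℕ → ℝ) (hb : ∀ u, 0 ≤ b u) (N s : ℕ) (hs : s < N) :
    ∑ t ∈ Finset.range N, b (dst s t) ≤ 2 * ∑ u ∈ Finset.range N, b u := by
  have h1 : ∑ t ∈ Finset.range N, b (dst s t) =
      ∑ t ∈ Finset.range s, b (dst s t) + ∑ t ∈ Finset.Ico s N, b (dst s t) :=
    (Finset.sum_range_add_sum_Ico _ hs.le).symm
  have h2 : ∑ t ∈ Finset.range s, b (dst s t) = ∑ j ∈ Finset.range s, b (j + 1) := by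
    rw [← Finset.sum_range_reflect (fun j => b (j + 1)) s]
    refine Finset.sum_congr rfl fun t ht => ?_
    have := Finset.mem_range.1 ht
    congr 1
    unfold dst
    omega
  have h3 : ∑ t ∈ Finset.Ico s N, b (dst s t) = ∑ j ∈ Finset.range (N - s), b j := by
    rw [Finset.sum_Ico_eq_sum_range]
    refine Finset.sum_congr rfl fun t _ => ?_
    congr 1
    unfold dst
    omega
  have h4 : ∑ j ∈ Finset.range s, b (j + 1) ≤ ∑ u ∈ Finset.range N, b u := by
    have h5 : ∑ u ∈ Finset.range (s + 1), b u ≤ ∑ u ∈ Finset.range N, b u :=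
      Finset.sum_le_sum_of_subset_of_nonneg (Finset.range_mono (by omega)) fun i _ _ => hb i
    rw [Finset.sum_range_succ'] at h5
    have := hb 0
    linarith
  have h6 : ∑ j ∈ Finset.range (N - s), b j ≤ ∑ u ∈ Finset.range N, b u :=
    Finset.sum_le_sum_of_subset_of_nonneg (Finset.range_mono (by omega)) fun i _ _ => hb i
  rw [h1, h2, h3]
  linarith

theorem ces : S_CES := by
  intro C c a hC hc ⟨M, hM⟩ ha
  have hM0 : 0 ≤ M := (abs_nonneg _).trans (hM 0)
  set b : ℕ → ℝ := fun u => if u = 0 then M else |c u| with hb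
  have hb0 : ∀ u, 0 ≤ b u := by
    intro u
    by_cases h : u = 0
    · simp [hb, h, hM0]
    · simp [hb, h]
  have hblim : Tendsto b atTop (nhds 0) := by
    have h1 : Tendsto (fun u => |c u|) atTop (nhds 0) := by
      have := hc.abs
      rwa [abs_zero] at this
    refine h1.congr' ?_
    filter_upwards [eventually_ge_atTop 1] with u hu
    simp [hb, show u ≠ 0 by omega]
  have hces := hblim.cesaro
  rw [Metric.tendsto_atTop]
  intro ε hε
  have hε2 : 0 < ε ^ 2 / 4 := by positivity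
  obtain ⟨N, hN1, hN⟩ : ∃ N : ℕ, 1 ≤ N ∧ (N : ℝ)⁻¹ * ∑ u ∈ Finset.range N, b u < ε ^ 2 / 4 := by
    have h1 := (hces.eventually_lt_const hε2).and (eventually_ge_atTop 1)
    obtain ⟨N, h2, h3⟩ := h1.exists
    exact ⟨N, h3, h2⟩
  have hNpos : (0 : ℝ) < N := by exact_mod_cast hN1
  -- the limit for fixed `N`
  have hlim : Tendsto (fun i => (1 / (N : ℝ) ^ 2) * ∑ s ∈ Finset.range N, ∑ t ∈ Finset.range N,
      (if dst s t = 0 then M else C i (dst s t))) atTop
      (nhds ((1 / (N : ℝ) ^ 2) * ∑ s ∈ Finset.range N, ∑ t ∈ Finset.range N,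
        (if dst s t = 0 then M else c (dst s t)))) := by
    refine Tendsto.const_mul _ (tendsto_finsetSum _ fun s _ => tendsto_finsetSum _ fun t _ => ?_)
    by_cases h : dst s t = 0
    · simp only [h, if_true]
      exact tendsto_const_nhds
    · simp only [h, if_false]
      exact hC _ (Nat.one_le_iff_ne_zero.2 h)
  have hle : (1 / (N : ℝ) ^ 2) * ∑ s ∈ Finset.range N, ∑ t ∈ Finset.range N,
      (if dst s t = 0 then M else c (dst s t)) < ε ^ 2 := by
    have h1 : ∑ s ∈ Finset.range N, ∑ t ∈ Finset.range N,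
        (if dst s t = 0 then M else c (dst s t)) ≤
        ∑ s ∈ Finset.range N, 2 * ∑ u ∈ Finset.range N, b u := by
      refine Finset.sum_le_sum fun s hs => ?_
      refine le_trans (Finset.sum_le_sum fun t _ => ?_) (ces_row b hb0 N s (Finset.mem_range.1 hs))
      by_cases h : dst s t = 0
      · simp [hb, h]
      · simp only [hb, h, if_false]
        exact le_abs_self _
    rw [Finset.sum_const, Finset.card_range, nsmul_eq_mul] at h1
    calc (1 / (N : ℝ) ^ 2) * ∑ s ∈ Finset.range N, ∑ t ∈ Finset.range N,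
        (if dst s t = 0 then M else c (dst s t))
        ≤ (1 / (N : ℝ) ^ 2) * ((N : ℝ) * (2 * ∑ u ∈ Finset.range N, b u)) :=
          mul_le_mul_of_nonneg_left h1 (by positivity)
      _ = 2 * ((N : ℝ)⁻¹ * ∑ u ∈ Finset.range N, b u) := by
          field_simp
      _ < ε ^ 2 := by nlinarith [sq_nonneg ε, hε]
  obtain ⟨i0, hi0⟩ := eventually_atTop.1 (hlim.eventually_lt_const hle)
  refine ⟨i0, fun i hi => ?_⟩
  rw [Real.dist_eq, sub_zero]
  have h1 := (ha i N hN1).trans_lt (lt_of_le_of_lt (mul_le_mul_of_nonneg_left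
    (Finset.sum_le_sum fun s _ => Finset.sum_le_sum fun t _ => ?_) (by positivity)) (hi0 i hi))
  · exact abs_lt_of_sq_lt_sq h1 hε.le
  · by_cases h : dst s t = 0
    · rw [if_pos h, h]
      exact (le_abs_self _).trans (hM i)
    · rw [if_neg h]

end Pool.Agent.Helper21.EQ
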