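import Pool.Agent.Helper21.EQ.M
import Pool.Graph.R_pool_sql_team_seeded_1acbe0a2.Y818.IC.PRODJ
import Pool.Graph.R_pool_sql_team_seeded_1acbe0a2.Y818.IC.SW

set_option autoImplicit false

open MeasureTheory Filter UpperHalfPlane Pool.Agent.Y818.IC

namespace Pool.Agent.Helper21.EQ

/-- mean values over an orbit of functions of some of the coordinates -/
theorem avg_proj {n r : ℕ} (U : Subgroup AutC) (v : Fin n → ℂ) (ι : Fin r → Fin n)
    (hfin : (orb U v).Finite) (φ : (Fin r → ℂ) → ℝ) :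
    avg (orb U v) (fun w => φ (fun k => w (ι k))) = avg (orb U (fun k => v (ι k))) φ := by
  classical
  set P : (Fin n → ℂ) → (Fin r → ℂ) := fun w k => w (ι k) with hP
  have himg : orb U (fun k => v (ι k)) = P '' orb U v := by
    ext u
    constructor
    · rintro ⟨σ, hσ, rfl⟩
      exact ⟨fun k => σ (v k), ⟨σ, hσ, rfl⟩, rfl⟩
    · rintro ⟨w, ⟨σ, hσ, rfl⟩, rfl⟩
      exact ⟨σ, hσ, rfl⟩
  have hfin' : (orb U (fun k => v (ι k))).Finite := by
    rw [himg]
    exact hfin.image P
  rw [prodj_avg hfin, prodj_avg hfin']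
  set O := hfin.toFinset with hO
  set O' := hfin'.toFinset with hO'
  have hmem : ∀ w, w ∈ O ↔ w ∈ orb U v := fun w => by rw [hO, Set.Finite.mem_toFinset]
  have hmem' : ∀ u, u ∈ O' ↔ u ∈ orb U (fun k => v (ι k)) := fun w => by
    rw [hO', Set.Finite.mem_toFinset]
  have hmaps : ∀ w ∈ O, P w ∈ O' := by
    intro w hw
    rw [hmem', himg]
    exact ⟨w, (hmem w).1 hw, rfl⟩
  have hσO : ∀ σ ∈ U, ∀ w ∈ O, (fun k => σ (w k)) ∈ O := by
    intro σ hσ w hw
    rw [hmem] at hw ⊢
    obtain ⟨ρ, hρ, rfl⟩ := hw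
    exact ⟨σ * ρ, U.mul_mem hσ hρ, rfl⟩
  have hcard : ∀ u ∈ O', (O.filter fun w => P w = u).card = (O.filter fun w => P w = P v).card := by
    intro u hu
    rw [hmem'] at hu
    obtain ⟨σ, hσ, rfl⟩ := hu
    refine Finset.card_nbij' (fun w k => σ⁻¹ (w k)) (fun w k => σ (w k)) ?_ ?_ ?_ ?_
    · intro w hw
      simp only [Finset.coe_filter, Set.mem_ofPred_eq] at hw ⊢
      refine ⟨hσO _ (U.inv_mem hσ) _ hw.1, ?_⟩
      funext k
      have := congrFun hw.2 k
      simp only [hP] at this ⊢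
      rw [this]
      change (σ⁻¹ * σ) (v (ι k)) = _
      rw [inv_mul_cancel]
      rfl
    · intro w hw
      simp only [Finset.coe_filter, Set.mem_ofPred_eq] at hw ⊢
      refine ⟨hσO _ hσ _ hw.1, ?_⟩
      funext k
      have := congrFun hw.2 k
      simp only [hP] at this ⊢
      rw [this]
    · intro w _
      funext k
      change (σ * σ⁻¹) (w k) = _
      rw [mul_inv_cancel]
      rfl
    · intro w _
      funext k
      change (σ⁻¹ * σ) (w k) = _
      rw [inv_mul_cancel]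
      rfl
  have h1 : ∑ w ∈ O, φ (fun k => w (ι k)) =
      ((O.filter fun w => P w = P v).card : ℝ) * ∑ u ∈ O', φ u := by
    rw [← Finset.sum_fiberwise_of_maps_to hmaps, Finset.mul_sum]
    refine Finset.sum_congr rfl fun u hu => ?_
    rw [← hcard u hu]
    calc ∑ w ∈ O with P w = u, φ (fun k => w (ι k)) = ∑ _w ∈ O with P _w = u, φ u := by
          refine Finset.sum_congr rfl fun w hw => ?_
          rw [← (Finset.mem_filter.1 hw).2]
      _ = _ := by rw [Finset.sum_const, nsmul_eq_mul]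
  have h2 : (O.card : ℝ) = ((O.filter fun w => P w = P v).card : ℝ) * O'.card := by
    rw [Finset.card_eq_sum_card_fiberwise hmaps, Finset.sum_congr rfl hcard, Finset.sum_const,
      nsmul_eq_mul]
    push_cast
    ring
  have h3 : ((O.filter fun w => P w = P v).card : ℝ) ≠ 0 := by
    rw [Nat.cast_ne_zero]
    have hv : v ∈ O := by
      rw [hmem]
      exact ⟨1, U.one_mem, rfl⟩
    have hne : (O.filter fun w => P w = P v).Nonempty := ⟨v, Finset.mem_filter.2 ⟨hv, rfl⟩⟩
    exact (Finset.card_pos.2 hne).ne'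
  rw [h1, h2, mul_div_mul_left _ _ h3]

/-- the special subvariety on which one coordinate has a given value -/
noncomputable def hyp {n : ℕ} (k : Fin (n + 1)) (c : Fin (n + 1) → ℂ)
    (hc : ∀ l, ∃ D : ℤ, D < 0 ∧ c l ∈ sing D) : Sub (n + 1) where
  r := n
  blk := finSuccEquiv' k
  surj := fun b => ⟨(finSuccEquiv' k).symm (some b), by simp⟩
  c := c
  cm := hc
  g := fun _ => 1
  det := fun _ => by simp

theorem mem_hyp {n : ℕ} (k : Fin (n + 1)) (c : Fin (n + 1) → ℂ)
    (hc : ∀ l, ∃ D : ℤ, D < 0 ∧ c l ∈ sing D) (x : Fin (n + 1) → ℂ) (hx : ∀ l, ∃ τ : ℍ, x l = j τ)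
    (h : x k = c k) : x ∈ (hyp k c hc).carrier := by
  choose τ hτ using hx
  refine ⟨fun b => τ ((finSuccEquiv' k).symm (some b)), fun l => ⟨fun hl => ?_, fun b hb => ?_⟩⟩
  · have hl' : finSuccEquiv' k l = none := hl
    rw [← finSuccEquiv'_at k] at hl'
    have := (finSuccEquiv' k).injective hl'
    rw [this]
    exact h
  · have aux : ∀ b : Fin n, finSuccEquiv' k l = some b →
        Moebius (1 : Matrix (Fin 2) (Fin 2) ℚ) (τ ((finSuccEquiv' k).symm (some b))) (τ l) := by
      intro b hb'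
      have hl : (finSuccEquiv' k).symm (some b) = l := (Equiv.symm_apply_eq _).2 hb'.symm
      rw [hl]
      simp [Moebius]
    exact ⟨τ l, aux b hb, hτ l⟩

theorem hyp_proper {n : ℕ} (k : Fin (n + 1)) (c : Fin (n + 1) → ℂ)
    (hc : ∀ l, ∃ D : ℤ, D < 0 ∧ c l ∈ sing D) : (hyp k c hc).carrier ≠ Set.univ := by
  intro h
  have h1 : (fun l => c l + 1) ∈ (hyp k c hc).carrier := by rw [h]; trivial
  obtain ⟨τ, hτ⟩ := h1
  have := (hτ k).1 (finSuccEquiv'_at k)
  simp [hyp] at this

theorem gen_disc {n : ℕ} (x : ℕ → Fin n → ℂ) (D : ℕ → Fin n → ℤ)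
    (hx : ∀ i k, D i k < 0 ∧ x i k ∈ sing (D i k)) (hg : Generic x) (k : Fin n) :
    Tendsto (fun i => (D i k).natAbs) atTop atTop := by
  obtain ⟨n, rfl⟩ : ∃ n', n = n' + 1 := ⟨n - 1, by have := k.pos; omega⟩
  rw [tendsto_atTop]
  intro B
  have hfin : {i | ¬ B ≤ (D i k).natAbs}.Finite := by
    have h1 : {i | ¬ B ≤ (D i k).natAbs} ⊆ ⋃ d ∈ (Set.Icc (-(B : ℤ)) (-1)),
        ⋃ v ∈ sing d, {i | x i k = v ∧ v ∈ sing d} := by
      intro i hi
      simp only [Set.mem_ofPred_eq, not_le] at hi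
      simp only [Set.mem_iUnion]
      have := (hx i k).1
      refine ⟨D i k, ⟨by omega, by omega⟩, x i k, (hx i k).2, rfl, (hx i k).2⟩
    refine Set.Finite.subset ?_ h1
    refine Set.Finite.biUnion (Set.finite_Icc _ _) fun d hd => ?_
    have hd0 : d < 0 := by have := hd.2; omega
    refine Set.Finite.biUnion (sing_finite hd0) fun v hv => ?_
    by_cases hne : ∃ i₀, x i₀ k = v
    · obtain ⟨i₀, hi₀⟩ := hne
      have h3 := hg (hyp k (x i₀) fun l => ⟨D i₀ l, hx i₀ l⟩) (hyp_proper _ _ _)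
      refine h3.subset ?_
      rintro i ⟨hi, -⟩
      exact mem_hyp _ _ _ _ (fun l => sing_j (hx i l).2) (by rw [hi, hi₀])
    · refine Set.Finite.subset Set.finite_empty ?_
      rintro i ⟨hi, -⟩
      exact absurd ⟨i, hi⟩ hne
  have := hfin.compl_mem_cofinite
  rw [Nat.cofinite_eq_atTop] at this
  filter_upwards [this] with i hi
  by_contra hc
  exact hi hc

/-- the product of a special subvariety with a power of `Y(1)` -/
noncomputable def cyl {r : ℕ} (s : ℕ) (Z : Sub r) (c : Fin s → ℂ)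
    (hc : ∀ l, ∃ D : ℤ, D < 0 ∧ c l ∈ sing D) : Sub (r + s) where
  r := Z.r + s
  blk := Fin.addCases (fun k => (Z.blk k).map (Fin.castAdd s)) fun l => some (Fin.natAdd Z.r l)
  surj := fun b => by
    induction b using Fin.addCases with
    | left b =>
      obtain ⟨k, hk⟩ := Z.surj b
      exact ⟨Fin.castAdd s k, by rw [Fin.addCases_left, hk]; rfl⟩
    | right l => exact ⟨Fin.natAdd r l, by rw [Fin.addCases_right]⟩
  c := Fin.addCases Z.c c
  cm := fun k => by
    induction k using Fin.addCases with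
    | left k => rw [Fin.addCases_left]; exact Z.cm k
    | right l => rw [Fin.addCases_right]; exact hc l
  g := Fin.addCases Z.g fun _ => 1
  det := fun k => by
    induction k using Fin.addCases with
    | left k => rw [Fin.addCases_left]; exact Z.det k
    | right l => rw [Fin.addCases_right]; simp

theorem mem_cyl {r s : ℕ} (Z : Sub r) (c : Fin s → ℂ)
    (hc : ∀ l, ∃ D : ℤ, D < 0 ∧ c l ∈ sing D) (w : Fin (r + s) → ℂ)
    (h1 : (fun k => w (Fin.castAdd s k)) ∈ Z.carrier) (h2 : ∀ l, ∃ τ : ℍ, w (Fin.natAdd r l) = j τ) :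
    w ∈ (cyl s Z c hc).carrier := by
  obtain ⟨τ, hτ⟩ := h1
  choose ρ hρ using h2
  refine ⟨Fin.addCases τ ρ, fun k => ?_⟩
  induction k using Fin.addCases with
  | left k =>
    constructor
    · intro h
      have h' : (Z.blk k).map (Fin.castAdd s) = none := by
        simpa [cyl, Fin.addCases_left] using h
      have h3 := (hτ k).1 (Option.map_eq_none_iff.1 h')
      simpa [cyl, Fin.addCases_left] using h3
    · intro b hb
      have hb' : (Z.blk k).map (Fin.castAdd s) = some b := by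
        simpa only [cyl, Fin.addCases_left] using hb
      obtain ⟨b', hb1, hb2⟩ := Option.map_eq_some_iff.1 hb'
      obtain ⟨σ, hσ1, hσ2⟩ := (hτ k).2 b' hb1
      refine ⟨σ, ?_, hσ2⟩
      subst hb2
      simpa only [cyl, Fin.addCases_left] using hσ1
  | right l =>
    constructor
    · intro h
      simp [cyl, Fin.addCases_right] at h
    · intro b hb
      have hb' : some (Fin.natAdd Z.r l) = some b := by
        simpa only [cyl, Fin.addCases_right] using hb
      have hb2 := Option.some.inj hb'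
      refine ⟨ρ l, ?_, hρ l⟩
      subst hb2
      simp [Moebius, cyl, Fin.addCases_right]

theorem of_mem_cyl {r s : ℕ} (Z : Sub r) (c : Fin s → ℂ)
    (hc : ∀ l, ∃ D : ℤ, D < 0 ∧ c l ∈ sing D) (w : Fin (r + s) → ℂ)
    (h : w ∈ (cyl s Z c hc).carrier) : (fun k => w (Fin.castAdd s k)) ∈ Z.carrier := by
  obtain ⟨τ, hτ⟩ := h
  refine ⟨fun b => τ (Fin.castAdd s b), fun k => ⟨fun hk => ?_, fun b hb => ?_⟩⟩
  · have := (hτ (Fin.castAdd s k)).1 (by simp [cyl, Fin.addCases_left, hk])
    simpa [cyl, Fin.addCases_left] using this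
  · obtain ⟨σ, h1, h2⟩ := (hτ (Fin.castAdd s k)).2 (Fin.castAdd s b) (by
      simp [cyl, Fin.addCases_left, hb])
    refine ⟨σ, ?_, h2⟩
    simpa only [cyl, Fin.addCases_left] using h1

theorem gen_block {r s : ℕ} (x : ℕ → Fin (r + s) → ℂ) (D : ℕ → Fin (r + s) → ℤ)
    (hx : ∀ i k, D i k < 0 ∧ x i k ∈ sing (D i k)) (hg : Generic x) :
    Generic (fun i k => x i (Fin.castAdd s k)) := by
  intro Z hZ
  have h1 := hg (cyl s Z (fun l => x 0 (Fin.natAdd r l)) fun l => ⟨_, hx 0 _⟩) (by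
    intro h
    apply hZ
    rw [Set.eq_univ_iff_forall]
    intro u
    have h2 : Fin.append u (fun l => x 0 (Fin.natAdd r l)) ∈
        (cyl s Z (fun l => x 0 (Fin.natAdd r l)) fun l => ⟨_, hx 0 _⟩).carrier := by
      rw [h]; trivial
    have h3 := of_mem_cyl _ _ _ _ h2
    simpa [Fin.append_left] using h3)
  exact h1.subset fun i hi => mem_cyl _ _ _ _ hi fun l => sing_j (hx i _).2

end Pool.Agent.Helper21.EQ
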