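import Pool.Agent.Helper21.EQ.Mix
import Pool.Agent.Helper21.EQ.P

/-!
# Module COR (helper67): Cauchy-Schwarz for averages over orbits
-/

set_option autoImplicit false

open MeasureTheory Filter UpperHalfPlane Pool.Agent.Y818.IC

namespace Pool.Agent.Helper21.EQ

namespace CorM

theorem avg_bij {X : Type*} {S : Set X} (hS : S.Finite) (θ : X → X) (hm : Set.MapsTo θ S S)
    (hi : Set.InjOn θ S) (f : X → ℝ) : avg S (fun x => f (θ x)) = avg S f := by
  have hb : Set.BijOn θ S S := (hS.injOn_iff_bijOn_of_mapsTo hm).1 hi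
  unfold avg
  rw [finsum_mem_eq_of_bijOn θ hb (g := f) fun x _ => rfl]

theorem avg_congr {X : Type*} {S : Set X} {f g : X → ℝ} (h : ∀ w ∈ S, f w = g w) :
    avg S f = avg S g := by
  unfold avg
  rw [finsum_mem_congr rfl h]

theorem avg_sum {X : Type*} {S : Set X} (hS : S.Finite) (T : Finset ℕ) (f : ℕ → X → ℝ) :
    avg S (fun w => ∑ s ∈ T, f s w) = ∑ s ∈ T, avg S (f s) := by
  rw [prodj_avg hS, Finset.sum_comm, Finset.sum_div]
  exact Finset.sum_congr rfl fun s _ => (prodj_avg hS _).symm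

theorem avg_cs {X : Type*} {S : Set X} (hS : S.Finite) (hne : S.Nonempty) (φ g : X → ℝ)
    (hφ : ∀ w, |φ w| ≤ 1) : (avg S (fun w => φ w * g w)) ^ 2 ≤ avg S (fun w => g w ^ 2) := by
  have hc : (0 : ℝ) < hS.toFinset.card := by
    rw [Nat.cast_pos]
    exact Finset.card_pos.2 ((Set.Finite.toFinset_nonempty hS).2 hne)
  rw [prodj_avg hS, prodj_avg hS, div_pow, div_le_div_iff₀ (by positivity) hc]
  have h1 := Finset.sum_mul_sq_le_sq_mul_sq hS.toFinset φ g
  have h2 : ∑ w ∈ hS.toFinset, φ w ^ 2 ≤ hS.toFinset.card := by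
    refine (Finset.sum_le_sum fun w _ => (sq_le_one_iff_abs_le_one _).2 (hφ w)).trans ?_
    simp
  have h3 : 0 ≤ ∑ w ∈ hS.toFinset, g w ^ 2 := Finset.sum_nonneg fun w _ => sq_nonneg _
  have h4 := h1.trans (mul_le_mul_of_nonneg_right h2 h3)
  nlinarith

variable {n r : ℕ} {U : Subgroup AutC}

theorem act_mem {σ : AutC} (hσ : σ ∈ U) {x w : Fin n → ℂ} (hw : w ∈ orb U x) :
    (fun k => σ (w k)) ∈ orb U x := by
  obtain ⟨τ, hτ, rfl⟩ := hw
  exact ⟨σ * τ, U.mul_mem hσ hτ, rfl⟩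

theorem self_mem (x : Fin n → ℂ) : x ∈ orb U x := ⟨1, U.one_mem, rfl⟩

theorem act_inj (σ : AutC) : Function.Injective fun (w : Fin n → ℂ) k => σ (w k) := by
  intro w w' h
  funext k
  exact σ.injective (congrFun h k)

theorem avg_shift {x : Fin n → ℂ} (hfin : (orb U x).Finite) {σ : AutC} (hσ : σ ∈ U)
    (F : (Fin n → ℂ) → ℝ) : avg (orb U x) (fun w => F (fun k => σ (w k))) = avg (orb U x) F :=
  avg_bij hfin (fun w k => σ (w k)) (fun _ hw => act_mem hσ hw) (act_inj σ).injOn F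

theorem pow_add_apply (ρ : AutC) (a b : ℕ) (z : ℂ) : (ρ ^ (a + b)) z = (ρ ^ a) ((ρ ^ b) z) := by
  rw [pow_add]
  rfl

theorem inv_app (σ : AutC) (z : ℂ) : σ⁻¹ (σ z) = z := by
  change (σ⁻¹ * σ) z = z
  rw [inv_mul_cancel]
  rfl

theorem app_inv (σ : AutC) (z : ℂ) : σ (σ⁻¹ z) = z := by
  change (σ * σ⁻¹) z = z
  rw [mul_inv_cancel]
  rfl

/-- the correlation only depends on the distance -/
theorem corr_shift {x : Fin n → ℂ} (hfin : (orb U x).Finite) {ρ : AutC} (hρ : ρ ∈ U)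
    (ι : Fin r → Fin n) (h : (Fin r → ℂ) → ℝ) (s t : ℕ) :
    avg (orb U x) (fun w => h (fun k => (ρ ^ s) (w (ι k))) * h (fun k => (ρ ^ t) (w (ι k)))) =
      avg (orb U x) (fun w => h (fun k => w (ι k)) * h (fun k => (ρ ^ dst s t) (w (ι k)))) := by
  rcases le_total s t with hst | hst
  · have hd : dst s t = t - s := by unfold dst; omega
    rw [hd, ← avg_shift hfin (U.pow_mem hρ s)
      (fun w => h (fun k => w (ι k)) * h (fun k => (ρ ^ (t - s)) (w (ι k))))]
    refine avg_congr fun w _ => ?_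
    have h1 : ∀ z, (ρ ^ t) z = (ρ ^ (t - s)) ((ρ ^ s) z) := fun z => by
      rw [← pow_add_apply, Nat.sub_add_cancel hst]
    simp only [h1]
  · have hd : dst s t = s - t := by unfold dst; omega
    rw [hd, ← avg_shift hfin (U.pow_mem hρ t)
      (fun w => h (fun k => w (ι k)) * h (fun k => (ρ ^ (s - t)) (w (ι k))))]
    refine avg_congr fun w _ => ?_
    have h1 : ∀ z, (ρ ^ s) z = (ρ ^ (s - t)) ((ρ ^ t) z) := fun z => by
      rw [← pow_add_apply, Nat.sub_add_cancel hst]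
    simp only [h1]
    rw [mul_comm]

/-- the elements of the orbit of a pair -/
theorem pair_cases {x : Fin n → ℂ} {ρ : AutC} (ι : Fin r → Fin n) (d : ℕ)
    (hU : ∀ u ∈ U, (∀ k, ∀ t : ℕ, u ((ρ ^ t) (x (ι k))) = (ρ ^ t) (u (x (ι k)))) ∨
      (∀ k, ∀ t : ℕ, (ρ ^ t) (u ((ρ ^ t) (x (ι k)))) = u (x (ι k)))) {w : Fin (r + r) → ℂ}
    (hw : w ∈ orb U (Fin.append (fun k => x (ι k)) (fun k => (ρ ^ d) (x (ι k))))) :
    ∃ v ∈ orb U x, (∀ k, w (Fin.castAdd r k) = v (ι k)) ∧
      ((∀ k, w (Fin.natAdd r k) = (ρ ^ d) (w (Fin.castAdd r k))) ∨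
        (∀ k, w (Fin.castAdd r k) = (ρ ^ d) (w (Fin.natAdd r k)))) := by
  obtain ⟨u, hu, rfl⟩ := hw
  refine ⟨fun k => u (x k), ⟨u, hu, rfl⟩, fun k => by simp, ?_⟩
  rcases hU u hu with h | h
  · left
    intro k
    simp only [Fin.append_right, Fin.append_left]
    exact h k d
  · right
    intro k
    simp only [Fin.append_right, Fin.append_left]
    exact (h k d).symm

theorem pair_finite {x : Fin n → ℂ} (hfin : (orb U x).Finite) {ρ : AutC} (ι : Fin r → Fin n)
    (d : ℕ) (hU : ∀ u ∈ U, (∀ k, ∀ t : ℕ, u ((ρ ^ t) (x (ι k))) = (ρ ^ t) (u (x (ι k)))) ∨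
      (∀ k, ∀ t : ℕ, (ρ ^ t) (u ((ρ ^ t) (x (ι k)))) = u (x (ι k)))) :
    (orb U (Fin.append (fun k => x (ι k)) (fun k => (ρ ^ d) (x (ι k))))).Finite := by
  refine ((hfin.image fun w => Fin.append (fun k => w (ι k)) (fun k => (ρ ^ d) (w (ι k)))).union
    (hfin.image fun w => Fin.append (fun k => w (ι k))
      (fun k => (ρ ^ d)⁻¹ (w (ι k))))).subset fun w hw => ?_
  obtain ⟨v, hv, h1, h2⟩ := pair_cases ι d hU hw
  rcases h2 with h2 | h2
  · left
    refine ⟨v, hv, ?_⟩
    funext k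
    induction k using Fin.addCases with
    | left k => simp only [Fin.append_left, h1]
    | right k => simp only [Fin.append_right, h2, h1]
  · right
    refine ⟨v, hv, ?_⟩
    funext k
    induction k using Fin.addCases with
    | left k => simp only [Fin.append_left, h1]
    | right k => simp only [Fin.append_right, ← h1, h2, inv_app]

open Classical in
/-- the correlation as a mean over the orbit of the pair -/
theorem corr_pair {x : Fin n → ℂ} (hfin : (orb U x).Finite) {ρ : AutC} (hρ : ρ ∈ U)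
    (ι : Fin r → Fin n) (d : ℕ)
    (hU : ∀ u ∈ U, (∀ k, ∀ t : ℕ, u ((ρ ^ t) (x (ι k))) = (ρ ^ t) (u (x (ι k)))) ∨
      (∀ k, ∀ t : ℕ, (ρ ^ t) (u ((ρ ^ t) (x (ι k)))) = u (x (ι k)))) (h : (Fin r → ℂ) → ℝ) :
    avg (orb U x) (fun w => h (fun k => w (ι k)) * h (fun k => (ρ ^ d) (w (ι k)))) =
      avg (orb U (Fin.append (fun k => x (ι k)) (fun k => (ρ ^ d) (x (ι k)))))
        (fun w => h (fun k => w (Fin.castAdd r k)) * h (fun k => w (Fin.natAdd r k))) := by
  set X := Fin.append (fun k => x (ι k)) (fun k => (ρ ^ d) (x (ι k))) with hX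
  have hfX : (orb U X).Finite := pair_finite hfin ι d hU
  set ψ : (Fin r → ℂ) → ℝ := fun a => h a * h (fun k => (ρ ^ d) (a k)) with hψ
  have h1 := avg_proj U x ι hfin ψ
  have h2 := avg_proj U X (Fin.castAdd r) hfX ψ
  have h3 : (fun k => X (Fin.castAdd r k)) = fun k => x (ι k) := by
    funext k
    rw [hX, Fin.append_left]
  rw [h3] at h2
  have h4 : avg (orb U x) (fun w => h (fun k => w (ι k)) * h (fun k => (ρ ^ d) (w (ι k)))) =
      avg (orb U X) (fun w => ψ (fun k => w (Fin.castAdd r k))) := h1.trans h2.symm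
  rw [h4]
  -- the bijection
  set C : (Fin (r + r) → ℂ) → Prop := fun w =>
    ∀ k, w (Fin.natAdd r k) = (ρ ^ d) (w (Fin.castAdd r k)) with hC
  set θ : (Fin (r + r) → ℂ) → (Fin (r + r) → ℂ) := fun w =>
    if C w then w else fun k => (ρ ^ d)⁻¹ (w k) with hθ
  have hCinv : ∀ w, C (fun k => (ρ ^ d)⁻¹ (w k)) ↔ C w := by
    intro w
    refine forall_congr' fun k => ?_
    show (ρ ^ d)⁻¹ (w (Fin.natAdd r k)) = (ρ ^ d) ((ρ ^ d)⁻¹ (w (Fin.castAdd r k))) ↔ _
    rw [app_inv]
    constructor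
    · intro h5
      rw [← app_inv (ρ ^ d) (w (Fin.natAdd r k)), h5]
    · intro h5
      rw [h5, inv_app]
  have hm : Set.MapsTo θ (orb U X) (orb U X) := by
    intro w hw
    by_cases h5 : C w
    · rw [hθ]
      simp only [if_pos h5]
      exact hw
    · rw [hθ]
      simp only [if_neg h5]
      exact act_mem (U.inv_mem (U.pow_mem hρ d)) hw
  have hi : Set.InjOn θ (orb U X) := by
    intro w _ w' _ he
    simp only [hθ] at he
    by_cases h5 : C w
    · by_cases h6 : C w'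
      · rwa [if_pos h5, if_pos h6] at he
      · rw [if_pos h5, if_neg h6] at he
        rw [he, hCinv] at h5
        exact absurd h5 h6
    · by_cases h6 : C w'
      · rw [if_neg h5, if_pos h6] at he
        rw [← he, hCinv] at h6
        exact absurd h6 h5
      · rw [if_neg h5, if_neg h6] at he
        exact act_inj _ he
  rw [← avg_bij hfX θ hm hi]
  refine avg_congr fun w hw => ?_
  obtain ⟨v, _, _, h5⟩ := pair_cases ι d hU hw
  by_cases h6 : C w
  · have h7 : θ w = w := if_pos h6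
    rw [h7, hψ]
    have h8 : (fun k => w (Fin.natAdd r k)) = fun k => (ρ ^ d) (w (Fin.castAdd r k)) := funext h6
    rw [h8]
  · have h7 : θ w = fun k => (ρ ^ d)⁻¹ (w k) := if_neg h6
    have h8 := h5.resolve_left h6
    rw [h7, hψ]
    simp only [app_inv]
    have h9 : (fun k => (ρ ^ d)⁻¹ (w (Fin.castAdd r k))) = fun k => w (Fin.natAdd r k) := by
      funext k
      rw [h8 k, inv_app]
    rw [h9, mul_comm]

end CorM

open CorM in
theorem cor : S_COR := by
  intro n r U ρ hρ x ι hfin hU h φ hφ hφi N hN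
  have hN0 : (N : ℝ) ≠ 0 := by
    rw [Nat.cast_ne_zero]
    omega
  set g : (Fin n → ℂ) → ℝ := fun w =>
    (1 / (N : ℝ)) * ∑ s ∈ Finset.range N, h (fun k => (ρ ^ s) (w (ι k))) with hg
  have h1 : avg (orb U x) (fun w => φ w * h (fun k => w (ι k))) =
      avg (orb U x) (fun w => φ w * g w) := by
    have h2 : avg (orb U x) (fun w => φ w * g w) =
        (1 / (N : ℝ)) * ∑ s ∈ Finset.range N,
          avg (orb U x) (fun w => φ w * h (fun k => (ρ ^ s) (w (ι k)))) := by
      rw [← avg_sum hfin, ← prodj_avg_mul hfin]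
      refine avg_congr fun w _ => ?_
      simp only [hg]
      rw [Finset.mul_sum, Finset.mul_sum, Finset.mul_sum]
      exact Finset.sum_congr rfl fun s _ => by ring
    have h3 : ∀ s ∈ Finset.range N, avg (orb U x) (fun w => φ w * h (fun k => (ρ ^ s) (w (ι k)))) =
        avg (orb U x) (fun w => φ w * h (fun k => w (ι k))) := by
      intro s _
      rw [← avg_shift hfin (U.pow_mem hρ s) (fun w => φ w * h (fun k => w (ι k)))]
      refine avg_congr fun w hw => ?_
      rw [hφi w hw s]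
    rw [h2, Finset.sum_congr rfl h3, Finset.sum_const, Finset.card_range, nsmul_eq_mul]
    field_simp
  rw [h1]
  refine (avg_cs hfin ⟨x, self_mem x⟩ φ g hφ).trans (le_of_eq ?_)
  have h2 : avg (orb U x) (fun w => g w ^ 2) = (1 / (N : ℝ) ^ 2) * ∑ s ∈ Finset.range N,
      ∑ t ∈ Finset.range N, avg (orb U x) (fun w => h (fun k => (ρ ^ s) (w (ι k))) *
        h (fun k => (ρ ^ t) (w (ι k)))) := by
    have h3 : ∑ s ∈ Finset.range N, ∑ t ∈ Finset.range N,
        avg (orb U x) (fun w => h (fun k => (ρ ^ s) (w (ι k))) * h (fun k => (ρ ^ t) (w (ι k)))) =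
        avg (orb U x) (fun w => ∑ s ∈ Finset.range N, ∑ t ∈ Finset.range N,
          h (fun k => (ρ ^ s) (w (ι k))) * h (fun k => (ρ ^ t) (w (ι k)))) := by
      rw [avg_sum hfin]
      exact Finset.sum_congr rfl fun s _ => (avg_sum hfin _ _).symm
    rw [h3, ← prodj_avg_mul hfin]
    refine avg_congr fun w _ => ?_
    simp only [hg]
    rw [mul_pow, sq (∑ s ∈ Finset.range N, h (fun k => (ρ ^ s) (w (ι k)))),
      Finset.sum_mul_sum, div_pow, one_pow]
  rw [h2]
  congr 1
  refine Finset.sum_congr rfl fun s _ => Finset.sum_congr rfl fun t _ => ?_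
  rw [corr_shift hfin hρ ι h s t, corr_pair hfin hρ ι _ hU h]

end Pool.Agent.Helper21.EQ
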