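import Pool.Agent.Helper21.EQ.Def
import Pool.Graph.R_pool_sql_team_seeded_1acbe0a2.Y818.IC.Stm

/-!
# Special points whose coordinates have complex multiplication by several maximal orders
-/

set_option autoImplicit false

open MeasureTheory Filter UpperHalfPlane Pool.Agent.Y818.IC

namespace Pool.Agent.Helper21.EQ

/-- Every special subvariety of dimension less than `n` contains only finitely many members of the
sequence. -/
def GenericD {n : ℕ} (x : ℕ → Fin n → ℂ) : Prop :=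
  ∀ Z : Sub n, Z.r < n → {i | x i ∈ Z.carrier}.Finite

/-- There is a cyclic isogeny of degree `N` from `z` to `w`: `z = j τ`, `w = j (N τ)`. -/
def Isog (N : ℕ) (z w : ℂ) : Prop := ∃ τ σ : ℍ, (σ : ℂ) = (N : ℂ) * (τ : ℂ) ∧ z = j τ ∧ w = j σ

/-- `Z` is the `r`-th power of the Hecke correspondence `T_N` (cyclic isogenies of degree `N`). -/
def IsHecke {r : ℕ} (N : ℕ) (Z : Sub (r + r)) : Prop :=
  Z.Strong ∧ Z.r = r ∧
    Z.carrier = {w | ∀ k : Fin r, Isog N (w (Fin.castAdd r k)) (w (Fin.natAdd r k))}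

/-- A part of the main theorem of complex multiplication: if `p` splits in `ℚ(√D)`, there is an
automorphism over `ℚ(√D)` (an Artin automorphism of a prime ideal over `p`) whose `t`-th power maps
every singular modulus of discriminant `D` to one which is `p ^ t`-isogenous to it, by a cyclic
isogeny. -/
def Artin : Prop :=
  ∀ (D : ℤ) (p : ℕ), IsFund D → Splits p D → ∃ σ : AutC, FixesRoot D σ ∧
    ∀ z ∈ sing D, ∀ t : ℕ, Isog (p ^ t) z ((σ ^ t) z)

/-- **SGN**: the sign trick for automorphisms. `K` depends only on the index of `U` and `s`. -/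
def S_SGN : Prop :=
  CMTheory → ∀ U : Subgroup AutC, U.index ≠ 0 → ∀ s : ℕ, ∃ K : ℕ, 0 < K ∧
    ∀ d : ℤ, d < 0 → ∀ Es : Finset ℤ, Es.card ≤ s →
      (∀ E ∈ Es, E < 0 ∧ ¬ IsSquare (E * d)) → ∀ σ : AutC, FixesRoot d σ →
        ∃ ρ ∈ U, FixesRoot d ρ ∧ (∀ z ∈ sing d, ρ z = (σ ^ K) z) ∧ ∀ E ∈ Es, ∀ w ∈ sing E, ρ w = w

/-- The distance of two natural numbers. -/
def dst (s t : ℕ) : ℕ := (s - t) + (t - s)

/-- **COR**: Cauchy-Schwarz for averages over orbits, by the correlations of `h` with its images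
under the powers of `ρ`. The condition: `u` commutes with `ρ` or inverts it on the block. -/
def S_COR : Prop :=
  ∀ (n r : ℕ) (U : Subgroup AutC) (ρ : AutC), ρ ∈ U → ∀ (x : Fin n → ℂ) (ι : Fin r → Fin n),
    (orb U x).Finite →
    (∀ u ∈ U, (∀ k, ∀ t : ℕ, u ((ρ ^ t) (x (ι k))) = (ρ ^ t) (u (x (ι k)))) ∨
      (∀ k, ∀ t : ℕ, (ρ ^ t) (u ((ρ ^ t) (x (ι k)))) = u (x (ι k)))) →
    ∀ (h : (Fin r → ℂ) → ℝ) (φ : (Fin n → ℂ) → ℝ), (∀ w, |φ w| ≤ 1) →
      (∀ w ∈ orb U x, ∀ t : ℕ, φ (fun l => (ρ ^ t) (w l)) = φ w) → ∀ N : ℕ, 0 < N →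
      (avg (orb U x) (fun w => φ w * h (fun k => w (ι k)))) ^ 2 ≤
        (1 / (N : ℝ) ^ 2) * ∑ s ∈ Finset.range N, ∑ t ∈ Finset.range N,
          avg (orb U (Fin.append (fun k => x (ι k)) (fun k => (ρ ^ dst s t) (x (ι k)))))
            (fun w => h (fun k => w (Fin.castAdd r k)) * h (fun k => w (Fin.natAdd r k)))

/-- **CES**: Cesàro means. -/
def S_CES : Prop :=
  ∀ (C : ℕ → ℕ → ℝ) (c : ℕ → ℝ) (a : ℕ → ℝ),
    (∀ t, 1 ≤ t → Tendsto (fun i => C i t) atTop (nhds (c t))) → Tendsto c atTop (nhds 0) →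
    (∃ M : ℝ, ∀ i, |C i 0| ≤ M) →
    (∀ i N : ℕ, 0 < N → a i ^ 2 ≤
      (1 / (N : ℝ) ^ 2) * ∑ s ∈ Finset.range N, ∑ t ∈ Finset.range N, C i (dst s t)) →
    Tendsto a atTop (nhds 0)

/-- **HKS**: the powers of the Hecke correspondences are special subvarieties. -/
def S_HKS : Prop :=
  ∀ (r N : ℕ), 0 < N → (∃ (z : ℂ) (D : ℤ), D < 0 ∧ z ∈ sing D) → ∃ Z : Sub (r + r), IsHecke N Z

/-- **PIG**: two of the first `r` coordinates lie in one block of `Z'`, so the `x i` with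
`y i ∈ Z'` lie in a special subvariety of dimension `r - 1`. -/
def S_PIG : Prop :=
  ∀ (r s : ℕ) (x : ℕ → Fin r → ℂ) (y : ℕ → Fin (r + s) → ℂ),
    (∀ i k, y i (Fin.castAdd s k) = x i k) → GenericD x →
    ∀ Z' : Sub (r + s), Z'.Strong → Z'.r < r → {i | y i ∈ Z'.carrier}.Finite

/-- **SUBC**: some of the coordinates of a generic sequence. -/
def S_SUBC : Prop :=
  ∀ (n r s : ℕ) (e : Fin r ⊕ Fin s ≃ Fin n) (x : ℕ → Fin n → ℂ),
    (∀ i l, ∃ D : ℤ, D < 0 ∧ x i l ∈ sing D) → GenericD x →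
    GenericD (fun i k => x i (e (Sum.inl k))) ∧ GenericD (fun i k => x i (e (Sum.inr k)))

/-- **DIS**: the discriminants of a generic sequence tend to infinity. -/
def S_DIS : Prop :=
  ∀ (n : ℕ) (x : ℕ → Fin n → ℂ) (D : ℕ → Fin n → ℤ), (∀ i k, D i k < 0 ∧ x i k ∈ sing (D i k)) →
    GenericD x → ∀ k : Fin n, Tendsto (fun i => (D i k).natAbs) atTop atTop

end Pool.Agent.Helper21.EQ
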