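import Pool.Agent.Helper21.EQ.P
import Pool.Agent.Helper21.EQ.Mix

set_option autoImplicit false

open MeasureTheory Filter UpperHalfPlane Pool.Agent.Y818.IC

namespace Pool.Agent.Helper21.EQ

theorem dis : S_DIS := by
  intro n x D hx hg k
  obtain ⟨n, rfl⟩ : ∃ n', n = n' + 1 := ⟨n - 1, by have := k.pos; omega⟩
  rw [tendsto_atTop]
  intro B
  have hfin : {i | ¬ B ≤ (D i k).natAbs}.Finite := by
    have h1 : {i | ¬ B ≤ (D i k).natAbs} ⊆ ⋃ d ∈ (Set.Icc (-(B : ℤ)) (-1)),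
        ⋃ v ∈ sing d, {i | x i k = v ∧ v ∈ sing d} := by
      intro i hi
      simp only [Set.mem_ofPred_eq, not_le] at hi
      simp only [Set.mem_iUnion]
      have := (hx i k).1
      refine ⟨D i k, ⟨by omega, by omega⟩, x i k, (hx i k).2, rfl, (hx i k).2⟩
    refine Set.Finite.subset ?_ h1
    refine Set.Finite.biUnion (Set.finite_Icc _ _) fun d hd => ?_
    have hd0 : d < 0 := by have := hd.2; omega
    refine Set.Finite.biUnion (sing_finite hd0) fun v hv => ?_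
    by_cases hne : ∃ i₀, x i₀ k = v
    · obtain ⟨i₀, hi₀⟩ := hne
      have h3 := hg (hyp k (x i₀) fun l => ⟨D i₀ l, hx i₀ l⟩) (by
        show n < n + 1
        omega)
      refine h3.subset ?_
      rintro i ⟨hi, -⟩
      exact mem_hyp _ _ _ _ (fun l => sing_j (hx i l).2) (by rw [hi, hi₀])
    · refine Set.Finite.subset Set.finite_empty ?_
      rintro i ⟨hi, -⟩
      exact absurd ⟨i, hi⟩ hne
  have := hfin.compl_mem_cofinite
  rw [Nat.cofinite_eq_atTop] at this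
  filter_upwards [this] with i hi
  by_contra hc
  exact hi hc

theorem genericD_comp {n : ℕ} {x : ℕ → Fin n → ℂ} (h : GenericD x) {ν : ℕ → ℕ}
    (hν : Tendsto ν atTop atTop) : GenericD (fun i => x (ν i)) := by
  intro Z hZ
  have h1 := h Z hZ
  obtain ⟨B, hB⟩ := h1.bddAbove
  have h2 := hν.eventually_gt_atTop B
  obtain ⟨N, hN⟩ := eventually_atTop.1 h2
  refine (Set.finite_lt_nat N).subset fun i hi => ?_
  by_contra hc
  have h3 := hN i (not_lt.1 hc)
  have h4 := hB (show ν i ∈ {i | x i ∈ Z.carrier} from hi)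
  omega

/-- squarefree integers with a square product and the same sign are equal -/
theorem sqf_eq {a b : ℤ} (ha : Squarefree a) (hb : Squarefree b) (hab : IsSquare (a * b))
    (hs : 0 < a * b) : a = b := by
  obtain ⟨c, hc⟩ := hab
  have ha0 : a ≠ 0 := ha.ne_zero
  have h1 : a ∣ c := by
    have h2 : a ∣ c ^ 2 := ⟨b, by rw [hc]; ring⟩
    exact (ha.dvd_pow_iff_dvd (by norm_num)).1 h2
  obtain ⟨e, rfl⟩ := h1
  have h3 : b = a * (e * e) := by
    have : a * b = a * (a * (e * e)) := by rw [hc]; ring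
    exact mul_left_cancel₀ ha0 this
  have h4 : IsUnit e := hb e ⟨a, by rw [h3]; ring⟩
  have h5 : e * e = 1 := by
    rcases Int.isUnit_iff.1 h4 with h | h <;> rw [h] <;> norm_num
  rw [h3, h5, mul_one]

theorem fund_eq {D E : ℤ} (hD : IsFund D) (hE : IsFund E) (h : IsSquare (D * E)) : D = E := by
  have key : ∀ D : ℤ, IsFund D → ∃ m : ℤ, Squarefree m ∧ m < 0 ∧
      ((m % 4 = 1 ∧ D = m) ∨ (m % 4 ≠ 1 ∧ D = 4 * m)) := by
    intro D hD
    rcases hD with ⟨hneg, ⟨h1, h2⟩ | ⟨m, h1, h2, h3⟩⟩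
    · exact ⟨D, h2, hneg, Or.inl ⟨h1, rfl⟩⟩
    · exact ⟨m, h3, by omega, Or.inr ⟨by omega, h1⟩⟩
  obtain ⟨a, ha1, ha2, ha3⟩ := key D hD
  obtain ⟨b, hb1, hb2, hb3⟩ := key E hE
  have hab : IsSquare (a * b) := by
    have h4 : ∀ z : ℤ, IsSquare (4 * z) → IsSquare z := by
      intro z hz
      obtain ⟨c, hc⟩ := hz
      have h5 : (2 : ℤ) ∣ c := by
        have : (2 : ℤ) ∣ c * c := ⟨2 * z, by rw [← hc]; ring⟩
        rcases Int.prime_two.dvd_or_dvd this with h | h <;> exact h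
      obtain ⟨e, rfl⟩ := h5
      exact ⟨e, by linarith⟩
    rcases ha3 with ⟨-, rfl⟩ | ⟨-, rfl⟩ <;> rcases hb3 with ⟨-, rfl⟩ | ⟨-, rfl⟩
    · exact h
    · refine h4 _ ?_
      have : 4 * (D * b) = D * (4 * b) := by ring
      rwa [this]
    · refine h4 _ ?_
      have : 4 * (a * E) = 4 * a * E := by ring
      rwa [this]
    · refine h4 _ (h4 _ ?_)
      have : 4 * (4 * (a * b)) = 4 * a * (4 * b) := by ring
      rwa [this]
  have heq := sqf_eq ha1 hb1 hab (mul_pos_of_neg_of_neg ha2 hb2)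
  subst heq
  rcases ha3 with ⟨h1, h2⟩ | ⟨h1, h2⟩ <;> rcases hb3 with ⟨h3, h4⟩ | ⟨h3, h4⟩
  · rw [h2, h4]
  · exact absurd h1 h3
  · exact absurd h3 h1
  · rw [h2, h4]

end Pool.Agent.Helper21.EQ
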