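import Pool.Agent.Helper21.EQ.Mix

/-!
# HKS: the powers of the Hecke correspondences are special subvarieties (helper80)
-/

set_option autoImplicit false

open MeasureTheory Filter UpperHalfPlane Pool.Agent.Y818.IC

namespace Pool.Agent.Helper21.EQ

theorem hks : S_HKS := by
  intro r N hN hz
  obtain ⟨z, D, hD, hzD⟩ := hz
  let blk : Fin (r + r) → Option (Fin r) := Fin.addCases (fun k => some k) (fun k => some k)
  let g : Fin (r + r) → Matrix (Fin 2) (Fin 2) ℚ :=
    Fin.addCases (fun _ => 1) (fun _ => !![(N : ℚ), 0; 0, 1])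
  have b1 : ∀ k : Fin r, blk (Fin.castAdd r k) = some k := fun k => Fin.addCases_left k
  have b2 : ∀ k : Fin r, blk (Fin.natAdd r k) = some k := fun k => Fin.addCases_right k
  have g1 : ∀ k : Fin r, g (Fin.castAdd r k) = 1 := fun k => Fin.addCases_left k
  have g2 : ∀ k : Fin r, g (Fin.natAdd r k) = !![(N : ℚ), 0; 0, 1] := fun k => Fin.addCases_right k
  have m1 : ∀ (k : Fin r) (τ σ : ℍ), Moebius (g (Fin.castAdd r k)) τ σ ↔ (σ : ℂ) = τ := by
    intro k τ σ
    rw [g1]
    simp [Moebius]
  have m2 : ∀ (k : Fin r) (τ σ : ℍ), Moebius (g (Fin.natAdd r k)) τ σ ↔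
      (σ : ℂ) = (N : ℂ) * (τ : ℂ) := by
    intro k τ σ
    rw [g2]
    simp [Moebius]
  let Z : Sub (r + r) :=
    { r := r
      blk := blk
      surj := fun b => ⟨Fin.castAdd r b, b1 b⟩
      c := fun _ => z
      cm := fun _ => ⟨D, hD, hzD⟩
      g := g
      det := fun k => by
        induction k using Fin.addCases with
        | left k =>
          rw [g1, Matrix.det_one]
          exact one_pos
        | right k =>
          rw [g2, Matrix.det_fin_two_of]
          simpa using hN }
  refine ⟨Z, ?_, rfl, ?_⟩
  · intro k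
    induction k using Fin.addCases with
    | left k =>
      intro h
      have h1 : blk (Fin.castAdd r k) = none := h
      rw [b1] at h1
      exact absurd h1 (Option.some_ne_none k)
    | right k =>
      intro h
      have h1 : blk (Fin.natAdd r k) = none := h
      rw [b2] at h1
      exact absurd h1 (Option.some_ne_none k)
  · ext w
    constructor
    · rintro ⟨τ, hτ⟩ k
      obtain ⟨σ, hσ, hw⟩ := (hτ (Fin.castAdd r k)).2 k (b1 k)
      obtain ⟨σ', hσ', hw'⟩ := (hτ (Fin.natAdd r k)).2 k (b2 k)
      have e1 : σ = τ k := UpperHalfPlane.ext ((m1 k _ _).1 hσ)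
      exact ⟨τ k, σ', (m2 k _ _).1 hσ', by rw [hw, e1], hw'⟩
    · intro hw
      have hw' : ∀ k : Fin r, Isog N (w (Fin.castAdd r k)) (w (Fin.natAdd r k)) := hw
      choose τ σ h1 h2 h3 using hw'
      refine ⟨τ, fun k => ?_⟩
      induction k using Fin.addCases with
      | left k =>
        refine ⟨fun h => ?_, fun b hb => ?_⟩
        · have h4 : blk (Fin.castAdd r k) = none := h
          rw [b1] at h4
          exact absurd h4 (Option.some_ne_none k)
        · have h4 : blk (Fin.castAdd r k) = some b := hb
          rw [b1] at h4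
          obtain rfl := Option.some_injective _ h4
          exact ⟨τ k, (m1 k _ _).2 rfl, h2 k⟩
      | right k =>
        refine ⟨fun h => ?_, fun b hb => ?_⟩
        · have h4 : blk (Fin.natAdd r k) = none := h
          rw [b2] at h4
          exact absurd h4 (Option.some_ne_none k)
        · have h4 : blk (Fin.natAdd r k) = some b := hb
          rw [b2] at h4
          obtain rfl := Option.some_injective _ h4
          exact ⟨σ k, (m2 k _ _).2 (h1 k), h3 k⟩

end Pool.Agent.Helper21.EQ
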