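import Pool.Agent.Helper21.EQ.Mix

/-!
# PIG: pigeonhole for special subvarieties of small dimension
-/

set_option autoImplicit false

open MeasureTheory Filter UpperHalfPlane Pool.Agent.Y818.IC

namespace Pool.Agent.Helper21.EQ

/-- the special subvariety on which the coordinates `k` and `l` are related by `g` and `h` -/
noncomputable def rel {n : ℕ} (k l : Fin (n + 1)) (hkl : k ≠ l) (c : Fin (n + 1) → ℂ)
    (hc : ∀ m, ∃ D : ℤ, D < 0 ∧ c m ∈ sing D) (g h : Matrix (Fin 2) (Fin 2) ℚ)
    (hg : 0 < g.det) (hh : 0 < h.det) : Sub (n + 1) where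
  r := n
  blk := fun m => if m = l then finSuccEquiv' l k else finSuccEquiv' l m
  surj := fun b => ⟨(finSuccEquiv' l).symm (some b), by
    have h1 : (finSuccEquiv' l).symm (some b) ≠ l := by
      intro h
      have h2 := congrArg (finSuccEquiv' l) h
      rw [Equiv.apply_symm_apply, finSuccEquiv'_at] at h2
      exact absurd h2 (by simp)
    rw [if_neg h1, Equiv.apply_symm_apply]⟩
  c := c
  cm := hc
  g := fun m => if m = k then g else if m = l then h else 1
  det := fun m => by
    by_cases h1 : m = k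
    · rw [if_pos h1]; exact hg
    · rw [if_neg h1]
      by_cases h2 : m = l
      · rw [if_pos h2]; exact hh
      · rw [if_neg h2]; simp

theorem mem_rel {n : ℕ} (k l : Fin (n + 1)) (hkl : k ≠ l) (c : Fin (n + 1) → ℂ)
    (hc : ∀ m, ∃ D : ℤ, D < 0 ∧ c m ∈ sing D) (g h : Matrix (Fin 2) (Fin 2) ℚ)
    (hg : 0 < g.det) (hh : 0 < h.det) (x : Fin (n + 1) → ℂ) (hx : ∀ m, ∃ τ : ℍ, x m = j τ)
    (τ₀ σk σl : ℍ) (h1 : Moebius g τ₀ σk) (h2 : x k = j σk) (h3 : Moebius h τ₀ σl)
    (h4 : x l = j σl) : x ∈ (rel k l hkl c hc g h hg hh).carrier := by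
  choose τ hτ using hx
  have hk : ∀ b : Fin n, finSuccEquiv' l k = some b → (finSuccEquiv' l).symm (some b) = k :=
    fun b hb => (Equiv.symm_apply_eq _).2 hb.symm
  let T : Fin n → ℍ := fun a => if (finSuccEquiv' l).symm (some a) = k then τ₀ else
    τ ((finSuccEquiv' l).symm (some a))
  refine ⟨T, fun m => ?_⟩
  have key : (if m = l then finSuccEquiv' l k else finSuccEquiv' l m) ≠ none ∧
      ∀ b : Fin n, (if m = l then finSuccEquiv' l k else finSuccEquiv' l m) = some b →
        ∃ σ : ℍ, Moebius (if m = k then g else if m = l then h else 1) (T b) σ ∧ x m = j σ := by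
    by_cases hml : m = l
    · subst hml
      rw [if_pos rfl]
      refine ⟨fun hn => ?_, fun b hb => ⟨σl, ?_, h4⟩⟩
      · rw [← finSuccEquiv'_at m] at hn
        exact hkl ((finSuccEquiv' m).injective hn)
      · rw [if_neg (Ne.symm hkl), if_pos rfl]
        have : T b = τ₀ := if_pos (hk b hb)
        rw [this]
        exact h3
    · rw [if_neg hml]
      refine ⟨fun hn => ?_, fun b hb => ?_⟩
      · rw [← finSuccEquiv'_at l] at hn
        exact hml ((finSuccEquiv' l).injective hn)
      · by_cases hmk : m = k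
        · subst hmk
          rw [if_pos rfl]
          refine ⟨σk, ?_, h2⟩
          have : T b = τ₀ := if_pos (hk b hb)
          rw [this]
          exact h1
        · rw [if_neg hmk, if_neg hml]
          have hs : (finSuccEquiv' l).symm (some b) = m := (Equiv.symm_apply_eq _).2 hb.symm
          have : T b = τ m := by
            show (if (finSuccEquiv' l).symm (some b) = k then τ₀ else _) = _
            rw [hs, if_neg hmk]
          rw [this]
          exact ⟨τ m, by simp [Moebius], hτ m⟩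
  exact ⟨fun hn => absurd hn key.1, fun b hb => key.2 b hb⟩

/-- **PIG**. -/
theorem pig2 : S_PIG := by
  intro r s x y hxy hx Z' hZ' hr
  obtain ⟨n, rfl⟩ : ∃ n, r = n + 1 := ⟨r - 1, by omega⟩
  -- the blocks
  choose b hb using fun k : Fin (n + 1 + s) => Option.ne_none_iff_exists'.1 (hZ' k)
  obtain ⟨k, l, hkl, hbkl⟩ := Fintype.exists_ne_map_eq_of_card_lt
    (fun k : Fin (n + 1) => b (Fin.castAdd s k)) (by simpa using hr)
  have hfin := hx (rel k l hkl (fun m => Z'.c (Fin.castAdd s m)) (fun m => Z'.cm _)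
    (Z'.g (Fin.castAdd s k)) (Z'.g (Fin.castAdd s l)) (Z'.det _) (Z'.det _)) (Nat.lt_succ_self n)
  refine hfin.subset ?_
  rintro i ⟨τ, hτ⟩
  obtain ⟨σk, h1, h2⟩ := (hτ (Fin.castAdd s k)).2 _ (hb _)
  obtain ⟨σl, h3, h4⟩ := (hτ (Fin.castAdd s l)).2 _ (hb _)
  have hbkl' : b (Fin.castAdd s k) = b (Fin.castAdd s l) := hbkl
  rw [← hbkl'] at h3
  rw [hxy] at h2 h4
  refine mem_rel k l hkl _ _ _ _ _ _ (x i) (fun m => ?_) _ σk σl h1 h2 h3 h4
  obtain ⟨σ, -, h5⟩ := (hτ (Fin.castAdd s m)).2 _ (hb _)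
  rw [hxy] at h5
  exact ⟨σ, h5⟩

end Pool.Agent.Helper21.EQ
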