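import Pool.Agent.Helper21.EQ.P
import Pool.Agent.Helper21.EQ.Mix

/-!
# The module SUBC: some of the coordinates of a generic sequence
-/

set_option autoImplicit false

open MeasureTheory Filter UpperHalfPlane Pool.Agent.Y818.IC

namespace Pool.Agent.Helper21.EQ

namespace SubC

/-- a special subvariety with renumbered coordinates -/
noncomputable def pull {m n : ℕ} (f : Fin n ≃ Fin m) (Z : Sub m) : Sub n where
  r := Z.r
  blk := fun k => Z.blk (f k)
  surj := fun b => by
    obtain ⟨k, hk⟩ := Z.surj b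
    exact ⟨f.symm k, by rw [Equiv.apply_symm_apply]; exact hk⟩
  c := fun k => Z.c (f k)
  cm := fun k => Z.cm (f k)
  g := fun k => Z.g (f k)
  det := fun k => Z.det (f k)

theorem mem_pull {m n : ℕ} (f : Fin n ≃ Fin m) (Z : Sub m) (w : Fin n → ℂ)
    (h : (fun k => w (f.symm k)) ∈ Z.carrier) : w ∈ (pull f Z).carrier := by
  obtain ⟨τ, hτ⟩ := h
  refine ⟨τ, fun k => ?_⟩
  have h1 := hτ (f k)
  simp only [Equiv.symm_apply_apply] at h1
  exact h1

theorem one_side (n r s : ℕ) (e : Fin r ⊕ Fin s ≃ Fin n) (x : ℕ → Fin n → ℂ)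
    (hx : ∀ i l, ∃ D : ℤ, D < 0 ∧ x i l ∈ sing D) (hg : GenericD x) :
    GenericD (fun i k => x i (e (Sum.inl k))) := by
  have hn : n = r + s := by
    have h := Fintype.card_congr e
    simpa using h.symm
  intro Z hZ
  have hc : ∀ l : Fin s, ∃ D : ℤ, D < 0 ∧ x 0 (e (Sum.inr l)) ∈ sing D := fun l => hx 0 _
  set f : Fin n ≃ Fin (r + s) := e.symm.trans finSumFinEquiv with hf
  have h1 := hg (pull f (cyl s Z (fun l => x 0 (e (Sum.inr l))) hc)) (by
    show Z.r + s < n
    omega)
  refine h1.subset fun i hi => mem_pull _ _ _ (mem_cyl _ _ _ _ ?_ fun l => ?_)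
  · have h2 : (fun k => x i (f.symm (Fin.castAdd s k))) = fun k => x i (e (Sum.inl k)) := by
      funext k
      simp [hf]
    show (fun k => x i (f.symm (Fin.castAdd s k))) ∈ Z.carrier
    rw [h2]
    exact hi
  · obtain ⟨D, _, hD⟩ := hx i (f.symm (Fin.natAdd r l))
    exact sing_j hD

end SubC

/-- **SUBC** -/
theorem subc : S_SUBC := by
  intro n r s e x hx hg
  refine ⟨SubC.one_side n r s e x hx hg, ?_⟩
  exact SubC.one_side n s r ((Equiv.sumComm (Fin s) (Fin r)).trans e) x hx hg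

end Pool.Agent.Helper21.EQ
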