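import Pool.Agent.Helper21.EQ.Mix
import Pool.Graph.R_pool_sql_team_seeded_1acbe0a2.Y818.IC.AUT

/-!
# SGN: the sign trick for automorphisms (helper48)
-/

set_option autoImplicit false

open Pool.Agent.Y818.IC

namespace Pool.Agent.Helper21.EQ

theorem sgn_apply_inv (a : AutC) (w : ℂ) : a (a⁻¹ w) = w := by
  change (a * a⁻¹) w = w
  rw [mul_inv_cancel]; rfl

theorem sgn_inv_apply (a : AutC) (w : ℂ) : a⁻¹ (a w) = w := by
  change (a⁻¹ * a) w = w
  rw [inv_mul_cancel]; rfl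

/-- squares fix all square roots -/
theorem sgn_sq (E : ℤ) (ρ : AutC) : FixesRoot E (ρ * ρ) := by
  intro t ht
  change ρ (ρ t) = t
  rcases aut_sq ht (aut_img ht ρ) with h | h
  · rw [h, h]
  · rw [h, map_neg, h, neg_neg]

theorem sgn_mul {D : ℤ} {a b : AutC} (ha : FixesRoot D a) (hb : FixesRoot D b) :
    FixesRoot D (a * b) := mem_root.1 ((root D).mul_mem (mem_root.2 ha) (mem_root.2 hb))

theorem sgn_inv {D : ℤ} {a : AutC} (ha : FixesRoot D a) : FixesRoot D a⁻¹ :=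
  mem_root.1 ((root D).inv_mem (mem_root.2 ha))

theorem sgn_pow {D : ℤ} {a : AutC} (ha : FixesRoot D a) (n : ℕ) : FixesRoot D (a ^ n) :=
  mem_root.1 ((root D).pow_mem (mem_root.2 ha) n)

/-- powers of automorphisms which agree on a stable set -/
theorem sgn_pow_eq {X : Set ℂ} (hX : ∀ σ : AutC, ∀ z ∈ X, σ z ∈ X) {a b : AutC}
    (h : ∀ z ∈ X, a z = b z) (n : ℕ) : ∀ z ∈ X, (a ^ n) z = (b ^ n) z := by
  induction n with
  | zero => intro z _; rfl
  | succ n ih =>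
    intro z hz
    rw [pow_succ, pow_succ]
    change (a ^ n) (a z) = (b ^ n) (b z)
    rw [h z hz]
    exact ih _ (hX b z hz)

theorem sgn_aux (cm : CMTheory) (d : ℤ) (hd : d < 0) (σ : AutC) (hσ : FixesRoot d σ) (Es : Finset ℤ) :
    (∀ E ∈ Es, E < 0 ∧ ¬ IsSquare (E * d)) →
      ∃ ρ : AutC, FixesRoot d ρ ∧ (∀ z ∈ sing d, ρ z = (σ ^ (4 ^ Es.card)) z) ∧
        ∀ E ∈ Es, ∀ w ∈ sing E, ρ w = w := by
  obtain ⟨_, stabd, _, commd, _⟩ := cm d hd
  induction Es using Finset.induction_on with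
  | empty =>
    intro _
    exact ⟨σ, hσ, fun z _ => by simp, by simp⟩
  | insert E Es hE ih =>
    intro h
    obtain ⟨ρ, h1, h2, h3⟩ := ih fun E' hE' => h E' (Finset.mem_insert_of_mem hE')
    obtain ⟨hE0, hEd⟩ := h E (Finset.mem_insert_self E Es)
    obtain ⟨τ, hτd, hτE⟩ := aut.1 d E hd hE0 hEd
    obtain ⟨_, stabE, _, _, invE⟩ := cm E hE0
    set g : AutC := ρ * ρ with hg
    have hgd : FixesRoot d g := sgn_mul h1 h1
    have hgE : FixesRoot E g := sgn_sq E ρ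
    refine ⟨g * (τ * g * τ⁻¹), sgn_mul hgd (sgn_mul (sgn_mul hτd hgd) (sgn_inv hτd)), ?_, ?_⟩
    · intro z hz
      have h4 := commd τ g hτd hgd (τ⁻¹ z) (stabd τ⁻¹ z hz)
      rw [sgn_apply_inv] at h4
      change g (τ (g (τ⁻¹ z))) = _
      rw [h4]
      have h5 : ∀ z ∈ sing d, ρ z = (σ ^ (4 ^ Es.card)) z := h2
      have h6 := sgn_pow_eq stabd h5 4 z hz
      rw [← pow_mul, ← pow_succ, ← Finset.card_insert_of_notMem hE] at h6
      rw [← h6]
      rfl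
    · intro E' hE' w hw
      rcases Finset.mem_insert.1 hE' with rfl | hE'
      · have h4 := invE g τ hgE hτE (τ⁻¹ w) (stabE τ⁻¹ w hw)
        rw [sgn_apply_inv] at h4
        exact h4
      · have hw' : τ⁻¹ w ∈ sing E' := (cm E' (h E' (Finset.mem_insert_of_mem hE')).1).2.1 τ⁻¹ w hw
        change ρ (ρ (τ (ρ (ρ (τ⁻¹ w))))) = w
        rw [h3 E' hE' _ hw', h3 E' hE' _ hw', sgn_apply_inv, h3 E' hE' _ hw, h3 E' hE' _ hw]

/-- **SGN** -/
theorem sgn : S_SGN := by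
  intro cm U hU s
  refine ⟨4 ^ s * U.index.factorial, by positivity, ?_⟩
  intro d hd Es hs hEs σ hσ
  obtain ⟨ρ, h1, h2, h3⟩ := sgn_aux cm d hd σ hσ Es hEs
  have hmem : ρ ^ (4 ^ (s - Es.card) * U.index.factorial) ∈ U := by
    refine Subgroup.pow_mem_of_index_ne_zero_of_dvd hU ρ fun m hm hm' => ?_
    exact (Nat.dvd_factorial hm hm').trans (Dvd.intro_left _ rfl)
  refine ⟨ρ ^ (4 ^ (s - Es.card) * U.index.factorial), hmem, sgn_pow h1 _, ?_, ?_⟩
  · intro z hz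
    have h4 := sgn_pow_eq (cm d hd).2.1 h2 (4 ^ (s - Es.card) * U.index.factorial) z hz
    rw [h4, ← pow_mul, ← mul_assoc, ← pow_add, Nat.add_sub_cancel' hs]
  · intro E hE w hw
    have h4 := sgn_pow_eq (X := sing E) (cm E (hEs E hE).1).2.1 (a := ρ) (b := 1) (h3 E hE)
      (4 ^ (s - Es.card) * U.index.factorial) w hw
    rw [h4, one_pow]
    rfl

end Pool.Agent.Helper21.EQ
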