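import Pool.Agent.Helper21.EQ.Blk
import Pool.Agent.Helper21.EQ.Dis
import Pool.Agent.Helper21.EQ.Sgn
import Pool.Agent.Helper21.EQ.Cor
import Pool.Agent.Helper21.EQ.Ces
import Pool.Agent.Helper21.EQ.Hks
import Pool.Agent.Helper21.EQ.Pig
import Pool.Agent.Helper21.EQ.SUBC

set_option autoImplicit false

open MeasureTheory Filter UpperHalfPlane Pool.Agent.Y818.IC

namespace Pool.Agent.Helper21.EQ

theorem prod_bound {n : ℕ} (f : Fin n → ℂ → ℝ)
    (hf : ∀ k, Continuous (f k) ∧ HasCompactSupport (f k)) :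
    ∃ M : ℝ, 0 < M ∧ ∀ w : Fin n → ℂ, |∏ k, f k (w k)| ≤ M := by
  obtain ⟨G, hG⟩ := (prod_cs f hf).2.exists_bound_of_continuous (prod_cs f hf).1
  refine ⟨|G| + 1, by positivity, fun w => ?_⟩
  have h1 := hG w
  rw [Real.norm_eq_abs] at h1
  exact h1.trans ((le_abs_self G).trans (by linarith))

theorem prod_all (cm : CMTheory) (artin : Artin) {F : IntermediateField ℚ ℂ}
    (hF : FiniteDimensional ℚ F) {m : ∀ n : ℕ, Sub n → Measure (Fin n → ℂ)} (hK : KnownM F m)
    (k : ℕ) : ∀ (n : ℕ) (x : ℕ → Fin n → ℂ) (D : ℕ → Fin n → ℤ),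
      (∀ i l, x i l ∈ sing (D i l)) → (∀ i l, Good k (D i l)) → GenericD x →
      ∀ f : Fin n → ℂ → ℝ, (∀ l, Continuous (f l) ∧ HasCompactSupport (f l)) →
        Tendsto (fun i => avg (orb F.fixingSubgroup (x i)) (fun w => ∏ l, f l (w l))) atTop
          (nhds (∏ l, ∫ z, f l z ∂mu)) := by
  classical
  intro n
  induction n using Nat.strong_induction_on with
  | _ n ih =>
  intro x D hxs hgood hgen f hf
  have hneg : ∀ i l, D i l < 0 := fun i l => (hgood i l).1.1
  have hx : ∀ i l, D i l < 0 ∧ x i l ∈ sing (D i l) := fun i l => ⟨hneg i l, hxs i l⟩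
  rcases Nat.eq_zero_or_pos n with rfl | hn
  · have h1 : ∀ i, avg (orb F.fixingSubgroup (x i)) (fun w => ∏ l, f l (w l)) = 1 := by
      intro i
      have h2 := prodj_avg_one (prodj_orb_finite cm F.fixingSubgroup (D i) (x i) (hx i))
        ⟨x i, 1, Subgroup.one_mem _, rfl⟩
      simpa using h2
    simp only [h1]
    simp
  refine tendsto_of_subseq_tendsto fun ns hns => ?_
  set l0 : Fin n := ⟨0, hn⟩ with hl0
  obtain ⟨⟨B, p, q⟩, -, hI⟩ := pig
    ((Finset.univ : Finset (Finset (Fin n))) ×ˢ ((Finset.range (k + 1)) ×ˢ (Finset.range (k + 1))))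
    Set.univ Set.infinite_univ
    (fun s i => (Finset.univ.filter fun l => D (ns i) l = D (ns i) l0) = s.1 ∧
      s.2.1 ≠ s.2.2 ∧ Splits s.2.1 (D (ns i) l0) ∧ Splits s.2.2 (D (ns i) l0)) (by
      intro i _
      obtain ⟨p, q, hpq, hp, hq, hsp, hsq⟩ := (hgood (ns i) l0).2.1
      exact ⟨(Finset.univ.filter fun l => D (ns i) l = D (ns i) l0, p, q), by simp; omega, rfl,
        hpq, hsp, hsq⟩)
  set I := {N | N ∈ (Set.univ : Set ℕ) ∧
    ((Finset.univ.filter fun l => D (ns N) l = D (ns N) l0) = (B, p, q).1 ∧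
      (B, p, q).2.1 ≠ (B, p, q).2.2 ∧ Splits (B, p, q).2.1 (D (ns N) l0) ∧
        Splits (B, p, q).2.2 (D (ns N) l0))} with hIdef
  obtain ⟨ms, hmm, hmI⟩ : ∃ ms : ℕ → ℕ, StrictMono ms ∧ ∀ i, ms i ∈ I :=
    ⟨Nat.nth (· ∈ I), Nat.nth_strictMono hI, fun i => Nat.nth_mem_of_infinite hI i⟩
  refine ⟨ms, ?_⟩
  have hν : Tendsto (fun i => ns (ms i)) atTop atTop := hns.comp hmm.tendsto_atTop
  have hmB : ∀ i l, l ∈ B ↔ D (ns (ms i)) l = D (ns (ms i)) l0 := by
    intro i l
    have h1 := (hmI i).2.1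
    simp only at h1
    rw [← h1]
    simp
  have hl0B : l0 ∈ B := (hmB 0 l0).2 rfl
  -- the block
  set e := finSumEquivOfFinset (s := B) (rfl : B.card = B.card) (rfl : Bᶜ.card = Bᶜ.card)
    with he
  have heB : ∀ a, e (Sum.inl a) ∈ B := by
    intro a
    rw [he, finSumEquivOfFinset_inl]
    exact Finset.orderEmbOfFin_mem _ _ _
  have heA : ∀ a, e (Sum.inr a) ∈ Bᶜ := by
    intro a
    rw [he, finSumEquivOfFinset_inr]
    exact Finset.orderEmbOfFin_mem _ _ _
  have hr : 0 < B.card := Finset.card_pos.2 ⟨l0, hl0B⟩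
  have hs : Bᶜ.card < n := by
    have h1 := Finset.card_compl B
    rw [Fintype.card_fin] at h1
    have h2 : B.card ≤ n := by simpa using Finset.card_le_univ B
    omega
  have hgen' : GenericD (fun i => x (ns (ms i))) := genericD_comp hgen hν
  have hsub := subc n B.card Bᶜ.card e (fun i => x (ns (ms i)))
    (fun i l => ⟨D (ns (ms i)) l, hx _ l⟩) hgen'
  have hk : 0 < k := by
    obtain ⟨p, q, -, hp, -, hsp, -⟩ := (hgood 0 l0).2.1
    exact lt_of_lt_of_le hsp.1.pos hp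
  obtain ⟨M, hM, hMb⟩ := prod_bound (fun b : Fin Bᶜ.card => f (e (Sum.inr b))) fun b => hf _
  have h1 := block_peel sgn cor ces hks pig2 dis cm artin hF hK hr (fun a => e (Sum.inl a)) Bᶜ
    (fun i => x (ns (ms i))) (fun i => D (ns (ms i))) (fun i l => hx _ l)
    (fun i => D (ns (ms i)) l0) (fun i a => (hmB i _).1 (heB a)) (by
      intro i l hl hsq
      have h2 := fund_eq (hgood (ns (ms i)) l).1 (hgood (ns (ms i)) l0).1 hsq
      exact (Finset.mem_compl.1 hl) ((hmB i l).2 h2)) p q (1 / k) (hmI 0).2.2.1 (by positivity)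
    (fun i => ⟨(hgood _ _).1, (hmI i).2.2.2.1, (hmI i).2.2.2.2, (hgood _ _).2.2⟩)
    hsub.1 (fun a => f (e (Sum.inl a))) (fun a => hf _)
    (fun _ w => ∏ b : Fin Bᶜ.card, f (e (Sum.inr b)) (w (e (Sum.inr b)))) M hM
    (fun i w => hMb (fun b => w (e (Sum.inr b)))) (by
      intro i w w' hww
      exact Finset.prod_congr rfl fun b _ => by rw [hww _ (heA b)])
  have h2 := ih Bᶜ.card hs (fun i b => x (ns (ms i)) (e (Sum.inr b)))
    (fun i b => D (ns (ms i)) (e (Sum.inr b))) (fun i b => hxs _ _) (fun i b => hgood _ _) hsub.2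
    (fun b => f (e (Sum.inr b))) fun b => hf _
  have h3 : ∀ i, avg (orb F.fixingSubgroup (x (ns (ms i))))
      (fun w => ∏ b : Fin Bᶜ.card, f (e (Sum.inr b)) (w (e (Sum.inr b)))) =
      avg (orb F.fixingSubgroup (fun b => x (ns (ms i)) (e (Sum.inr b))))
        (fun w => ∏ b : Fin Bᶜ.card, f (e (Sum.inr b)) (w b)) := fun i =>
    avg_proj F.fixingSubgroup (x (ns (ms i))) (fun b => e (Sum.inr b))
      (prodj_orb_finite cm F.fixingSubgroup (D _) (x _) (hx _))
      (fun u => ∏ b : Fin Bᶜ.card, f (e (Sum.inr b)) (u b))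
  simp only [h3] at h1
  have h4 := h1.add (h2.mul_const (∏ a : Fin B.card, ∫ z, f (e (Sum.inl a)) z ∂mu))
  have h5 : ∀ g : Fin n → ℝ, ∏ l, g l =
      (∏ b : Fin Bᶜ.card, g (e (Sum.inr b))) * ∏ a : Fin B.card, g (e (Sum.inl a)) := by
    intro g
    rw [← Equiv.prod_comp e g, Fintype.prod_sum_type, mul_comm]
  have h6 : (fun w : Fin n → ℂ => ∏ l, f l (w l)) = fun w =>
      (∏ b : Fin Bᶜ.card, f (e (Sum.inr b)) (w (e (Sum.inr b)))) *
        ∏ a : Fin B.card, f (e (Sum.inl a)) (w (e (Sum.inl a))) := by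
    funext w
    exact h5 fun l => f l (w l)
  rw [h6, h5 fun l => ∫ z, f l z ∂mu]
  simpa using h4

theorem several (cm : CMTheory) (artin : Artin) {F : IntermediateField ℚ ℂ}
    (hF : FiniteDimensional ℚ F) {m : ∀ n : ℕ, Sub n → Measure (Fin n → ℂ)} (hK : KnownM F m)
    (k n : ℕ) (x : ℕ → Fin n → ℂ) (D : ℕ → Fin n → ℤ) (hxs : ∀ i l, x i l ∈ sing (D i l))
    (hgood : ∀ i l, Good k (D i l)) (hgen : GenericD x) : Equidistributed F x :=
  of_prod cm x D (fun i l => ⟨(hgood i l).1.1, hxs i l⟩)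
    (prod_all cm artin hF hK k n x D hxs hgood hgen)

theorem several_isolated (cm : CMTheory) (artin : Artin) {η : ℝ} (peel : S_PEEL η)
    {F : IntermediateField ℚ ℂ} (hF : FiniteDimensional ℚ F)
    {m : ∀ n : ℕ, Sub n → Measure (Fin n → ℂ)} (hK : KnownM F m) (k : ℕ) {r s : ℕ}
    (x : ℕ → Fin (r + s) → ℂ) (D : ℕ → Fin (r + s) → ℤ)
    (hx : ∀ i l, D i l < 0 ∧ x i l ∈ sing (D i l))
    (hgood : ∀ i (l : Fin r), Good k (D i (Fin.castAdd s l)))
    (hiso : ∀ i (l : Fin s), Isolated η (D i) (Fin.natAdd r l) (Finset.Iio (Fin.natAdd r l)))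
    (hgen : GenericD x) : Equidistributed F x := by
  refine of_prod cm x D hx fun f hf => ?_
  have hsub := subc (r + s) r s finSumFinEquiv x (fun i l => ⟨D i l, hx i l⟩) hgen
  simp only [finSumFinEquiv_apply_left] at hsub
  have h1 := mix_prod cm peel hF x D hx (dis (r + s) x D hx hgen) hiso f hf ?_ s le_rfl
  · have h2 : (fst (r + s) : Finset (Fin (r + s))) = Finset.univ := by
      ext l
      simp [fst]
    rw [h2] at h1
    exact h1
  · have h2 := prod_all cm artin hF hK k r (fun i l => x i (Fin.castAdd s l))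
      (fun i l => D i (Fin.castAdd s l)) (fun i l => (hx i _).2) hgood hsub.1
      (fun l => f (Fin.castAdd s l)) fun l => hf _
    refine h2.congr fun i => ?_
    exact (avg_proj F.fixingSubgroup (x i) (Fin.castAdd s)
      (prodj_orb_finite cm F.fixingSubgroup (D i) (x i) (hx i))
      (fun u => ∏ l : Fin r, f (Fin.castAdd s l) (u l))).symm

end Pool.Agent.Helper21.EQ
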