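import Pool.Agent.Helper21.EQ.A
import Pool.Graph.R_pool_sql_team_seeded_1acbe0a2.Y818.IC.FUN
import Pool.Graph.R_pool_sql_team_seeded_1acbe0a2.Y818.IC.MU1

set_option autoImplicit false

open MeasureTheory Filter UpperHalfPlane Pool.Agent.Y818.IC

namespace Pool.Agent.Helper21.EQ

theorem avg_close {X : Type*} (S : Set X) (f g : X → ℝ) (e : ℝ) (he : 0 ≤ e)
    (h : ∀ x, |f x - g x| ≤ e) : |avg S f - avg S g| ≤ e := by
  by_cases hS : S.Finite
  · obtain ⟨T, rfl⟩ := hS.exists_finset_coe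
    exact fun_avg_close T f g e he h
  · have h0 : S.ncard = 0 := Set.Infinite.ncard hS
    simp [avg, h0, he]

theorem int_close {X : Type*} [MeasurableSpace X] (μ : Measure X) [IsProbabilityMeasure μ]
    (f g : X → ℝ) (hf : Integrable f μ) (hg : Integrable g μ) (e : ℝ)
    (h : ∀ x, |f x - g x| ≤ e) : |(∫ x, f x ∂μ) - ∫ x, g x ∂μ| ≤ e := by
  rw [← integral_sub hf hg]
  have h1 := norm_integral_le_of_norm_le_const (μ := μ) (f := fun x => f x - g x) (C := e)
    (Eventually.of_forall fun x => by simpa using h x)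
  simpa using h1

theorem int_cc {n : ℕ} (μ : Measure (Fin n → ℂ)) [IsProbabilityMeasure μ]
    (f : (Fin n → ℂ) → ℝ) (hf : Continuous f) (hs : HasCompactSupport f) : Integrable f μ :=
  hf.integrable_of_hasCompactSupport hs

/-- continuous functions vanishing outside a ball -/
def AR (n : ℕ) (R : ℕ) : Set C(Fin n → ℂ, ℝ) :=
  {f | ∀ x, x ∉ Metric.closedBall (0 : Fin n → ℂ) R → f x = 0}

instance (n R : ℕ) : Nonempty (AR n R) := ⟨⟨0, fun x _ => by simp⟩⟩

theorem dense_seq (n : ℕ) : ∃ q : ℕ → (Fin n → ℂ) → ℝ,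
    (∀ j, Continuous (q j) ∧ HasCompactSupport (q j)) ∧
    ∀ f : (Fin n → ℂ) → ℝ, Continuous f → HasCompactSupport f → ∀ ε : ℝ, 0 < ε →
      ∃ j, ∀ x, |f x - q j x| ≤ ε := by
  refine ⟨fun j => ((TopologicalSpace.denseSeq (AR n (Nat.unpair j).1) (Nat.unpair j).2 :
    AR n (Nat.unpair j).1) : C(Fin n → ℂ, ℝ)), fun j => ?_, fun f hf hs ε hε => ?_⟩
  · refine ⟨ContinuousMap.continuous _, ?_⟩
    refine HasCompactSupport.of_support_subset_isCompact
      (isCompact_closedBall (0 : Fin n → ℂ) ((Nat.unpair j).1 : ℝ)) ?_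
    intro x hx
    by_contra hx'
    exact hx ((TopologicalSpace.denseSeq (AR n (Nat.unpair j).1) (Nat.unpair j).2).2 x hx')
  · obtain ⟨R, hR⟩ : ∃ R : ℕ, tsupport f ⊆ Metric.closedBall (0 : Fin n → ℂ) R := by
      obtain ⟨r, hr⟩ := (hs.isCompact.isBounded).subset_closedBall (0 : Fin n → ℂ)
      obtain ⟨R, hR⟩ := exists_nat_ge r
      exact ⟨R, hr.trans (Metric.closedBall_subset_closedBall hR)⟩
    have hfA : (⟨f, hf⟩ : C(Fin n → ℂ, ℝ)) ∈ AR n R := by
      intro x hx
      by_contra h0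
      exact hx (hR (subset_tsupport f h0))
    have h1 : TendstoUniformlyOn (fun (g : C(Fin n → ℂ, ℝ)) x => g x) (⟨f, hf⟩ : C(Fin n → ℂ, ℝ))
        (nhds (⟨f, hf⟩ : C(Fin n → ℂ, ℝ))) (Metric.closedBall (0 : Fin n → ℂ) R) :=
      (ContinuousMap.tendsto_iff_forall_isCompact_tendstoUniformlyOn.1 tendsto_id) _
        (isCompact_closedBall _ _)
    rw [Metric.tendstoUniformlyOn_iff] at h1
    have h2 := h1 ε hε
    have h3 : ∀ᶠ g : AR n R in nhds (⟨⟨f, hf⟩, hfA⟩ : AR n R),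
        ∀ x ∈ Metric.closedBall (0 : Fin n → ℂ) R, dist (f x) (g.1 x) < ε :=
      (continuous_subtype_val.tendsto (⟨⟨f, hf⟩, hfA⟩ : AR n R)).eventually h2
    obtain ⟨i, hi⟩ := (TopologicalSpace.denseRange_denseSeq (AR n R)).mem_nhds h3
    refine ⟨Nat.pair R i, fun x => ?_⟩
    have key : ∀ (a b : ℕ), a = R → b = i →
        |f x - ((TopologicalSpace.denseSeq (AR n a) b : AR n a) : C(Fin n → ℂ, ℝ)) x| ≤ ε := by
      rintro a b rfl rfl
      by_cases hx : x ∈ Metric.closedBall (0 : Fin n → ℂ) a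
      · have := hi x hx
        rw [Real.dist_eq] at this
        exact this.le
      · have e1 : f x = 0 := hfA x hx
        have e2 := (TopologicalSpace.denseSeq (AR n a) b).2 x hx
        rw [e1, e2]
        simpa using hε.le
    exact key _ _ (by simp) (by simp)

end Pool.Agent.Helper21.EQ
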