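import Pool.Agent.Helper21.EQ.P
import Pool.Graph.R_pool_sql_team_seeded_1acbe0a2.Y818.IC.FUN

set_option autoImplicit false

open MeasureTheory Filter UpperHalfPlane Pool.Agent.Y818.IC

namespace Pool.Agent.Helper21.EQ

theorem prod_cs {n : ℕ} (f : Fin n → ℂ → ℝ)
    (hf : ∀ k, Continuous (f k) ∧ HasCompactSupport (f k)) :
    Continuous (fun w : Fin n → ℂ => ∏ k, f k (w k)) ∧
      HasCompactSupport (fun w : Fin n → ℂ => ∏ k, f k (w k)) := by
  constructor
  · exact continuous_finset_prod _ fun k _ => (hf k).1.comp (continuous_apply k)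
  · refine HasCompactSupport.intro (K := Set.pi Set.univ fun k => tsupport (f k))
      (isCompact_univ_pi fun k => (hf k).2) ?_
    intro w hw
    simp only [Set.mem_pi, Set.mem_univ, true_implies, not_forall] at hw
    obtain ⟨k, hk⟩ := hw
    exact Finset.prod_eq_zero (Finset.mem_univ k) (image_eq_zero_of_notMem_tsupport hk)

/-- the first coordinates -/
def fst {n : ℕ} (a : ℕ) : Finset (Fin n) := Finset.univ.filter fun l : Fin n => l.val < a

theorem mix_prod (cm : CMTheory) {η : ℝ} (peel : S_PEEL η) {F : IntermediateField ℚ ℂ}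
    (hF : FiniteDimensional ℚ F) {r s : ℕ} (x : ℕ → Fin (r + s) → ℂ) (D : ℕ → Fin (r + s) → ℤ)
    (hx : ∀ i k, D i k < 0 ∧ x i k ∈ sing (D i k))
    (hDt : ∀ k, Tendsto (fun i => (D i k).natAbs) atTop atTop)
    (hiso : ∀ i (l : Fin s), Isolated η (D i) (Fin.natAdd r l) (Finset.Iio (Fin.natAdd r l)))
    (f : Fin (r + s) → ℂ → ℝ) (hf : ∀ k, Continuous (f k) ∧ HasCompactSupport (f k))
    (h0 : Tendsto (fun i => avg (orb F.fixingSubgroup (x i))
      (fun w => ∏ k : Fin r, f (Fin.castAdd s k) (w (Fin.castAdd s k)))) atTop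
      (nhds (∏ k : Fin r, ∫ z, f (Fin.castAdd s k) z ∂mu))) :
    ∀ m ≤ s, Tendsto (fun i => avg (orb F.fixingSubgroup (x i))
      (fun w => ∏ k ∈ fst (r + m), f k (w k))) atTop
      (nhds (∏ k ∈ fst (r + m), ∫ z, f k z ∂mu)) := by
  intro m
  induction m with
  | zero =>
    intro _
    have hp : ∀ g : Fin (r + s) → ℝ,
        ∏ k ∈ fst (r + 0), g k = ∏ k : Fin r, g (Fin.castAdd s k) := by
      intro g
      rw [fst, Finset.prod_filter, Fin.prod_univ_add]
      simp
    simp only [hp]
    exact h0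
  | succ m ih =>
    intro hm
    have ih' := ih (by omega)
    set k : Fin (r + s) := Fin.natAdd r ⟨m, hm⟩ with hk
    have hkv : k.val = r + m := by simp [hk]
    have hA : (fst (r + m) : Finset (Fin (r + s))) = Finset.Iio k := by
      ext l
      simp only [fst, Finset.mem_filter, Finset.mem_univ, true_and, Finset.mem_Iio, Fin.lt_def, hkv]
    have hkA : k ∉ (fst (r + m) : Finset (Fin (r + s))) := by
      rw [hA]
      simp
    have hS : (fst (r + (m + 1)) : Finset (Fin (r + s))) = insert k (fst (r + m)) := by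
      ext l
      simp only [fst, Finset.mem_filter, Finset.mem_univ, true_and, Finset.mem_insert,
        Fin.ext_iff, hkv]
      omega
    have hb : ∀ k, ∃ C : ℝ, ∀ x, |f k x| ≤ C := by
      intro k
      obtain ⟨C, hC⟩ := (hf k).2.exists_bound_of_continuous (hf k).1
      exact ⟨C, fun x => by simpa [Real.norm_eq_abs] using hC x⟩
    choose C hC using hb
    set P : (Fin (r + s) → ℂ) → ℝ := fun w => ∏ l ∈ fst (r + m), f l (w l) with hPdef
    set M : ℝ := 1 + ∏ l ∈ (fst (r + m) : Finset (Fin (r + s))), C l with hM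
    have hPM : ∀ w, |P w| ≤ M := by
      intro w
      rw [hPdef]
      simp only
      rw [Finset.abs_prod]
      have := Finset.prod_le_prod (s := (fst (r + m) : Finset (Fin (r + s))))
        (f := fun l => |f l (w l)|) (g := C) (fun l _ => abs_nonneg _) fun l _ => hC l _
      linarith
    have hM1 : 0 < M := by
      have : 0 ≤ ∏ l ∈ (fst (r + m) : Finset (Fin (r + s))), C l :=
        Finset.prod_nonneg fun l _ => (abs_nonneg _).trans (hC l 0)
      linarith
    set I : ℝ := ∫ z, f k z ∂mu with hI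
    have h1 : Tendsto (fun i => avg (orb F.fixingSubgroup (x i)) (fun w => P w * f k (w k)) -
        avg (orb F.fixingSubgroup (x i)) P * I) atTop (nhds 0) := by
      rw [Metric.tendsto_nhds]
      intro ε hε
      obtain ⟨B, hB⟩ := peel (r + s) F hF (f k) (hf k).1 (hf k).2 (ε / (2 * M)) (by positivity)
      obtain ⟨B', hB'⟩ := exists_nat_ge B
      filter_upwards [(hDt k).eventually_ge_atTop B'] with i hi
      have hBi : B ≤ |(D i k : ℝ)| := by
        have h2 : (B' : ℝ) ≤ ((D i k).natAbs : ℝ) := by exact_mod_cast hi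
        rw [Nat.cast_natAbs] at h2
        push_cast at h2
        linarith
      have hfin := prodj_orb_finite cm F.fixingSubgroup (D i) (x i) (hx i)
      have h3 := hB (D i) (x i) (hx i) k (fst (r + m)) hkA
        (by rw [hA]; exact hiso i ⟨m, hm⟩) hBi (fun w => M⁻¹ * P w) (fun w => by
          rw [abs_mul, abs_of_nonneg (inv_nonneg.mpr hM1.le)]
          calc M⁻¹ * |P w| ≤ M⁻¹ * M :=
                mul_le_mul_of_nonneg_left (hPM w) (inv_nonneg.mpr hM1.le)
            _ = 1 := inv_mul_cancel₀ hM1.ne') (fun w w' hww => by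
          have : P w = P w' := Finset.prod_congr rfl fun l hl => by rw [hww l hl]
          rw [this])
      have e1 : avg (orb F.fixingSubgroup (x i)) (fun w => M⁻¹ * P w * f k (w k)) =
          M⁻¹ * avg (orb F.fixingSubgroup (x i)) (fun w => P w * f k (w k)) := by
        rw [← prodj_avg_mul hfin]
        congr 1
        funext w
        ring
      rw [e1, prodj_avg_mul hfin] at h3
      rw [Real.dist_eq, sub_zero]
      have e2 : avg (orb F.fixingSubgroup (x i)) (fun w => P w * f k (w k)) -
          avg (orb F.fixingSubgroup (x i)) P * I = M *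
          (M⁻¹ * avg (orb F.fixingSubgroup (x i)) (fun w => P w * f k (w k)) -
            M⁻¹ * avg (orb F.fixingSubgroup (x i)) P * I) := by
        field_simp
      rw [e2, abs_mul, abs_of_pos hM1]
      calc _ ≤ M * (ε / (2 * M)) := mul_le_mul_of_nonneg_left h3 hM1.le
        _ = ε / 2 := by field_simp
        _ < ε := by linarith
    have h2 := h1.add (ih'.mul_const I)
    have e3 : (fun w : Fin (r + s) → ℂ => ∏ l ∈ fst (r + (m + 1)), f l (w l)) =
        fun w => P w * f k (w k) := by
      funext w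
      rw [hS, Finset.prod_insert hkA, mul_comm]
    have e4 : ∏ l ∈ (fst (r + (m + 1)) : Finset (Fin (r + s))), ∫ z, f l z ∂mu =
        (∏ l ∈ (fst (r + m) : Finset (Fin (r + s))), ∫ z, f l z ∂mu) * I := by
      rw [hS, Finset.prod_insert hkA, mul_comm]
    rw [e3, e4]
    simpa using h2

/-- from product functions to all functions -/
theorem of_prod (cm : CMTheory) {F : IntermediateField ℚ ℂ} {n : ℕ} (x : ℕ → Fin n → ℂ)
    (D : ℕ → Fin n → ℤ) (hx : ∀ i k, D i k < 0 ∧ x i k ∈ sing (D i k))
    (h : ∀ f : Fin n → ℂ → ℝ, (∀ k, Continuous (f k) ∧ HasCompactSupport (f k)) →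
      Tendsto (fun i => avg (orb F.fixingSubgroup (x i)) (fun w => ∏ k, f k (w k))) atTop
        (nhds (∏ k, ∫ z, f k z ∂mu))) : Equidistributed F x := by
  intro f hf hfs
  rw [Metric.tendsto_nhds]
  intro ε hε
  obtain ⟨m, a, g, hg, hap⟩ := sw n f hf hfs (ε / 4) (by positivity)
  have hlim : Tendsto (fun i => avg (orb F.fixingSubgroup (x i))
      (fun w => ∑ l, a l * ∏ k, g l k (w k))) atTop
      (nhds (∑ l, a l * ∏ k, ∫ z, g l k z ∂mu)) := by
    have h1 : ∀ i, avg (orb F.fixingSubgroup (x i)) (fun w => ∑ l, a l * ∏ k, g l k (w k)) =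
        ∑ l, a l * avg (orb F.fixingSubgroup (x i)) (fun w => ∏ k, g l k (w k)) := by
      intro i
      have hSfin := fun_orb_finite cm F.fixingSubgroup (D i) (x i) (hx i)
      obtain ⟨T, hT⟩ : ∃ T : Finset (Fin n → ℂ),
          (T : Set (Fin n → ℂ)) = orb F.fixingSubgroup (x i) := ⟨hSfin.toFinset, by simp⟩
      rw [← hT]
      exact fun_avg_sum T a fun l w => ∏ k, g l k (w k)
    simp only [h1]
    exact tendsto_finset_sum _ fun l _ => (h (g l) (hg l)).const_mul (a l)
  have hint : ∀ l, Integrable (fun w : Fin n → ℂ => ∏ k, g l k (w k))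
      (Measure.pi fun _ : Fin n => mu) := by
    intro l
    exact int_cc _ _ (prod_cs (g l) (hg l)).1 (prod_cs (g l) (hg l)).2
  have hI : ∫ w, (∑ l, a l * ∏ k, g l k (w k)) ∂(Measure.pi fun _ : Fin n => mu) =
      ∑ l, a l * ∏ k, ∫ z, g l k z ∂mu := by
    rw [integral_finset_sum _ fun l _ => (hint l).const_mul (a l)]
    refine Finset.sum_congr rfl fun l _ => ?_
    rw [integral_const_mul, integral_fintype_prod_eq_prod]
  have a2 := int_close (Measure.pi fun _ : Fin n => mu) f
    (fun w => ∑ l, a l * ∏ k, g l k (w k)) (int_cc _ f hf hfs)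
    (integrable_finset_sum _ fun l _ => (hint l).const_mul (a l)) (ε / 4) hap
  rw [hI] at a2
  rw [Metric.tendsto_nhds] at hlim
  filter_upwards [hlim (ε / 4) (by positivity)] with i h1
  have a1 := avg_close (orb F.fixingSubgroup (x i)) f
    (fun w => ∑ l, a l * ∏ k, g l k (w k)) (ε / 4) (by positivity) hap
  rw [Real.dist_eq] at h1 ⊢
  have b1 := abs_le.1 a1
  have b2 := abs_le.1 a2
  have b4 := abs_lt.1 h1
  rw [abs_lt]
  constructor <;> linarith [b1.1, b1.2, b2.1, b2.2, b4.1, b4.2]

/-- One block with one field, and isolated coordinates. -/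
theorem mix (cm : CMTheory) {η : ℝ} (peel : S_PEEL η) {F : IntermediateField ℚ ℂ}
    (hF : FiniteDimensional ℚ F) {r s : ℕ} (x : ℕ → Fin (r + s) → ℂ) (D : ℕ → Fin (r + s) → ℤ)
    (hx : ∀ i k, D i k < 0 ∧ x i k ∈ sing (D i k)) (hg : Generic x)
    (hiso : ∀ i (l : Fin s), Isolated η (D i) (Fin.natAdd r l) (Finset.Iio (Fin.natAdd r l)))
    (h0 : Generic (fun i (k : Fin r) => x i (Fin.castAdd s k)) →
      Equidistributed F (fun i (k : Fin r) => x i (Fin.castAdd s k))) :
    Equidistributed F x := by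
  refine of_prod cm x D hx fun f hf => ?_
  have h1 := mix_prod cm peel hF x D hx (gen_disc x D hx hg) hiso f hf ?_ s le_rfl
  · have h2 : (fst (r + s) : Finset (Fin (r + s))) = Finset.univ := by
      ext l
      simp [fst]
    rw [h2] at h1
    exact h1
  · have h2 := h0 (gen_block x D hx hg)
      (fun u => ∏ k : Fin r, f (Fin.castAdd s k) (u k))
      (prod_cs (fun k => f (Fin.castAdd s k)) fun k => hf _).1
      (prod_cs (fun k => f (Fin.castAdd s k)) fun k => hf _).2
    rw [integral_fintype_prod_eq_prod (fun (k : Fin r) => f (Fin.castAdd s k))] at h2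
    refine h2.congr fun i => ?_
    exact (avg_proj F.fixingSubgroup (x i) (Fin.castAdd s)
      (prodj_orb_finite cm F.fixingSubgroup (D i) (x i) (hx i))
      (fun u => ∏ k : Fin r, f (Fin.castAdd s k) (u k))).symm

end Pool.Agent.Helper21.EQ
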