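import Pool.Agent.Helper21.EQ.Mix
import Pool.Agent.Helper21.EQ.Q
import Pool.Graph.R_pool_sql_team_seeded_1acbe0a2.Y818.IC.AUT

/-!
# One block of coordinates is asymptotically independent of the others
-/

set_option autoImplicit false

open MeasureTheory Filter UpperHalfPlane Pool.Agent.Y818.IC

namespace Pool.Agent.Helper21.EQ

/-- The published theorems which are used; `m n Z` is the canonical probability measure of a
special subvariety `Z` of `Y(1)ⁿ` without constant coordinates (the image of the product of the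
hyperbolic measures under the parametrisation by `τ`). -/
structure KnownM (F : IntermediateField ℚ ℂ) (m : ∀ n : ℕ, Sub n → Measure (Fin n → ℂ)) :
    Prop where
  /-- the canonical measure of `Y(1)ⁿ` itself -/
  full : ∀ (n : ℕ) (Z : Sub n), Z.Strong → Z.r = n → m n Z = Measure.pi fun _ : Fin n => mu
  /-- Khayutin's theorem (Joint equidistribution of CM points, Ann. of Math. 189 (2019)), for the
  product of modular curves which parametrises `Z`: special points with one fundamental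
  discriminant for all coordinates, in a field in which two fixed primes `p`, `q` split and whose
  zeta function has no exceptional zero, have equidistributed Galois orbits in `Z` if no
  special subvariety of smaller dimension contains infinitely many of them. -/
  khayutin : ∀ (n : ℕ) (Z : Sub n), Z.Strong → ∀ (p q : ℕ) (c : ℝ), p ≠ q → 0 < c →
    ∀ (x : ℕ → Fin n → ℂ) (D : ℕ → ℤ),
      (∀ i, IsFund (D i) ∧ Splits p (D i) ∧ Splits q (D i) ∧ ¬ HasZero c (D i).natAbs) →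
      (∀ i k, x i k ∈ sing (D i)) → Tendsto (fun i => (D i).natAbs) atTop atTop →
      (∀ i, x i ∈ Z.carrier) →
      (∀ Z' : Sub n, Z'.Strong → Z'.r < Z.r → {i | x i ∈ Z'.carrier}.Finite) →
      ∀ f : (Fin n → ℂ) → ℝ, Continuous f → HasCompactSupport f →
        Tendsto (fun i => avg (orb F.fixingSubgroup (x i)) f) atTop (nhds (∫ w, f w ∂(m n Z)))
  /-- Equidistribution of Hecke correspondences (Clozel, Oh, Ullmo: Hecke operators and
  equidistribution of Hecke points, Invent. Math. 144 (2001)). -/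
  hecke : ∀ (r : ℕ) (Z : ℕ → Sub (r + r)) (N : ℕ → ℕ), (∀ t, IsHecke (N t) (Z t)) →
    Tendsto N atTop atTop → ∀ f : (Fin (r + r) → ℂ) → ℝ, Continuous f → HasCompactSupport f →
      Tendsto (fun t => ∫ w, f w ∂(m (r + r) (Z t))) atTop
        (nhds (∫ w, f w ∂(Measure.pi fun _ : Fin (r + r) => mu)))

theorem pow_fixesRoot {D : ℤ} {ρ : AutC} (h : FixesRoot D ρ) (t : ℕ) : FixesRoot D (ρ ^ t) := by
  rw [← mem_root] at h ⊢
  exact pow_mem h t

theorem pow_fix {ρ : AutC} {S : Set ℂ} (h : ∀ w ∈ S, ρ w = w) (t : ℕ) :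
    ∀ w ∈ S, (ρ ^ t) w = w := by
  induction t with
  | zero => intro w _; simp
  | succ t ih =>
    intro w hw
    rw [pow_succ]
    change (ρ ^ t) (ρ w) = w
    rw [h w hw, ih w hw]

theorem pow_eq (cm : CMTheory) {d : ℤ} (hd : d < 0) {ρ σ : AutC} {K : ℕ}
    (h : ∀ z ∈ sing d, ρ z = (σ ^ K) z) (t : ℕ) : ∀ z ∈ sing d, (ρ ^ t) z = (σ ^ (K * t)) z := by
  induction t with
  | zero => intro w _; simp
  | succ t ih =>
    intro w hw
    rw [pow_succ, mul_add, mul_one, pow_add]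
    change (ρ ^ t) (ρ w) = (σ ^ (K * t)) ((σ ^ K) w)
    rw [← h w hw]
    exact ih _ ((cm d hd).2.1 ρ w hw)

theorem avg_add {X : Type*} {S : Set X} (hS : S.Finite) (f g : X → ℝ) :
    avg S (fun x => f x + g x) = avg S f + avg S g := by
  rw [prodj_avg hS, prodj_avg hS, prodj_avg hS, Finset.sum_add_distrib, add_div]

theorem avg_le {X : Type*} (S : Set X) (f : X → ℝ) (M : ℝ) (hM : 0 ≤ M) (h : ∀ x, |f x| ≤ M) :
    |avg S f| ≤ M := by
  have h1 := avg_close S f (fun _ => 0) M hM (fun x => by simpa using h x)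
  have h2 : avg S (fun _ : X => (0 : ℝ)) = 0 := by simp [avg]
  rwa [h2, sub_zero] at h1

/-- the mean of `(g(w₁) - c) (g(w₂) - c)` -/
theorem avg_pair {X : Type*} {S : Set X} (hS : S.Finite) (hne : S.Nonempty) (a b : X → ℝ) (c : ℝ) :
    avg S (fun x => (a x - c) * (b x - c)) =
      avg S (fun x => a x * b x) - c * avg S a - c * avg S b + c ^ 2 := by
  have h0 : (hS.toFinset.card : ℝ) ≠ 0 := by
    rw [Nat.cast_ne_zero]
    exact (Finset.card_pos.mpr ((Set.Finite.toFinset_nonempty hS).mpr hne)).ne'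
  rw [prodj_avg hS, prodj_avg hS, prodj_avg hS, prodj_avg hS]
  have h1 : ∑ x ∈ hS.toFinset, (a x - c) * (b x - c) =
      ∑ x ∈ hS.toFinset, a x * b x - c * ∑ x ∈ hS.toFinset, a x - c * ∑ x ∈ hS.toFinset, b x +
        c ^ 2 * hS.toFinset.card := by
    rw [Finset.mul_sum, Finset.mul_sum, ← Finset.sum_sub_distrib, ← Finset.sum_sub_distrib]
    have : c ^ 2 * (hS.toFinset.card : ℝ) = ∑ _x ∈ hS.toFinset, c ^ 2 := by
      rw [Finset.sum_const, nsmul_eq_mul, mul_comm]
    rw [this, ← Finset.sum_add_distrib]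
    refine Finset.sum_congr rfl fun x _ => by ring
  rw [h1]
  field_simp

theorem orb_shift {n : ℕ} (U : Subgroup AutC) (ρ : AutC) (hρ : ρ ∈ U) (v : Fin n → ℂ) :
    orb U (fun k => ρ (v k)) = orb U v := by
  ext w
  constructor
  · rintro ⟨σ, hσ, rfl⟩
    exact ⟨σ * ρ, U.mul_mem hσ hρ, rfl⟩
  · rintro ⟨σ, hσ, rfl⟩
    refine ⟨σ * ρ⁻¹, U.mul_mem hσ (U.inv_mem hρ), ?_⟩
    funext k
    change σ (v k) = σ ((ρ⁻¹ * ρ) (v k))
    rw [inv_mul_cancel]
    rfl

theorem tend_pow (p K : ℕ) (hp : 2 ≤ p) (hK0 : 0 < K) :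
    Tendsto (fun t : ℕ => p ^ (K * t)) atTop atTop := by
  refine tendsto_atTop_mono (f := fun t : ℕ => t) (fun t => ?_) tendsto_id
  have h1 : t < 2 ^ t := Nat.lt_two_pow_self
  have h2 : 2 ^ t ≤ p ^ t := Nat.pow_le_pow_left hp t
  have h3 : p ^ t ≤ p ^ (K * t) := Nat.pow_le_pow_right (by omega) (Nat.le_mul_of_pos_left t hK0)
  omega

theorem block_peel (hSGN : S_SGN) (hCOR : S_COR) (hCES : S_CES) (hHKS : S_HKS) (hPIG : S_PIG)
    (hDIS : S_DIS) (cm : CMTheory) (artin : Artin) {F : IntermediateField ℚ ℂ}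
    (hF : FiniteDimensional ℚ F) {m : ∀ n : ℕ, Sub n → Measure (Fin n → ℂ)} (hK : KnownM F m)
    {n r : ℕ} (hr : 0 < r) (ι : Fin r → Fin n) (A : Finset (Fin n)) (x : ℕ → Fin n → ℂ)
    (D : ℕ → Fin n → ℤ) (hx : ∀ i l, D i l < 0 ∧ x i l ∈ sing (D i l)) (d : ℕ → ℤ)
    (hd : ∀ i k, D i (ι k) = d i) (hA : ∀ i, ∀ l ∈ A, ¬ IsSquare (D i l * d i))
    (p q : ℕ) (c : ℝ) (hpq : p ≠ q) (hc : 0 < c)
    (hgood : ∀ i, IsFund (d i) ∧ Splits p (d i) ∧ Splits q (d i) ∧ ¬ HasZero c (d i).natAbs)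
    (hgen : GenericD (fun i k => x i (ι k))) (f : Fin r → ℂ → ℝ)
    (hf : ∀ k, Continuous (f k) ∧ HasCompactSupport (f k)) (φ : ℕ → (Fin n → ℂ) → ℝ) (M : ℝ)
    (hM : 0 < M) (hφ1 : ∀ i w, |φ i w| ≤ M)
    (hφ : ∀ i w w', (∀ l ∈ A, w l = w' l) → φ i w = φ i w') :
    Tendsto (fun i => avg (orb F.fixingSubgroup (x i)) (fun w => φ i w * ∏ k, f k (w (ι k))) -
      avg (orb F.fixingSubgroup (x i)) (φ i) * ∏ k, ∫ z, f k z ∂mu) atTop (nhds 0) := by
  classical
  set U := F.fixingSubgroup with hUdef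
  have hU : U.index ≠ 0 := aut.2.2.2 F hF
  have hdneg : ∀ i, d i < 0 := fun i => (hgood i).1.1
  have hxB : ∀ i k, x i (ι k) ∈ sing (d i) := fun i k => by rw [← hd i k]; exact (hx i _).2
  obtain ⟨K, hK0, hSG⟩ := hSGN cm U hU n
  -- the automorphisms
  have hex : ∀ i, ∃ ρ ∈ U, FixesRoot (d i) ρ ∧
      (∀ z ∈ sing (d i), ∀ t : ℕ, Isog (p ^ (K * t)) z ((ρ ^ t) z)) ∧
      ∀ l ∈ A, ∀ w ∈ sing (D i l), ρ w = w := by
    intro i
    obtain ⟨σ, hσ1, hσ2⟩ := artin (d i) p (hgood i).1 (hgood i).2.1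
    obtain ⟨ρ, h1, h2, h3, h4⟩ := hSG (d i) (hdneg i) (A.image (D i))
      (Finset.card_image_le.trans ((Finset.card_le_univ A).trans (by simp))) (by
        intro E hE
        obtain ⟨l, hl, rfl⟩ := Finset.mem_image.1 hE
        exact ⟨(hx i l).1, hA i l hl⟩) σ hσ1
    refine ⟨ρ, h1, h2, fun z hz t => ?_, fun l hl => h4 _ (Finset.mem_image_of_mem _ hl)⟩
    rw [pow_eq cm (hdneg i) h3 t z hz]
    exact hσ2 z hz (K * t)
  choose ρ hρU hρR hρI hρA using hex
  have hρs : ∀ i t, ∀ z ∈ sing (d i), (ρ i ^ t) z ∈ sing (d i) := fun i t z hz =>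
    (cm (d i) (hdneg i)).2.1 _ z hz
  -- the Hecke correspondences
  have hp : 2 ≤ p := (hgood 0).2.1.1.two_le
  have hZ : ∀ t : ℕ, ∃ Z : Sub (r + r), IsHecke (p ^ (K * t)) Z := fun t =>
    hHKS r (p ^ (K * t)) (by positivity) ⟨x 0 (ι ⟨0, hr⟩), d 0, hdneg 0, hxB 0 _⟩
  choose Z hZ using hZ
  let y : ℕ → ℕ → Fin (r + r) → ℂ := fun t i =>
    Fin.append (fun k => x i (ι k)) (fun k => (ρ i ^ t) (x i (ι k)))
  have hyl : ∀ t i k, y t i (Fin.castAdd r k) = x i (ι k) := fun t i k => Fin.append_left _ _ _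
  have hyr : ∀ t i k, y t i (Fin.natAdd r k) = (ρ i ^ t) (x i (ι k)) := fun t i k =>
    Fin.append_right _ _ _
  have hys : ∀ t i l, y t i l ∈ sing (d i) := by
    intro t i l
    induction l using Fin.addCases with
    | left k => rw [hyl]; exact hxB i k
    | right k => rw [hyr]; exact hρs i t _ (hxB i k)
  have hdt : Tendsto (fun i => (d i).natAbs) atTop atTop :=
    hDIS r (fun i k => x i (ι k)) (fun i _ => d i) (fun i k => ⟨hdneg i, hxB i k⟩) hgen ⟨0, hr⟩
  set g : (Fin r → ℂ) → ℝ := fun u => ∏ k, f k (u k) with hg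
  set c0 : ℝ := ∏ k, ∫ z, f k z ∂mu with hc0
  -- the block
  have hlim1 : Tendsto (fun i => avg (orb U (fun k => x i (ι k))) g) atTop (nhds c0) := by
    have h1 := hK.khayutin r (top (d 0) (hdneg 0) (fun k => x 0 (ι k)) (hxB 0))
      (top_strong _ _ _ _) p q c hpq hc (fun i k => x i (ι k)) d hgood hxB hdt
      (fun i => mem_top _ _ _ _ _ fun l => sing_j (hxB i l))
      (fun Z' _ hr' => hgen Z' hr') g (prod_cs f hf).1 (prod_cs f hf).2
    rw [hK.full r _ (top_strong _ _ _ _) rfl, hg, integral_fintype_prod_eq_prod] at h1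
    exact h1
  -- the pairs
  let gg : (Fin (r + r) → ℂ) → ℝ := fun w =>
    g (fun k => w (Fin.castAdd r k)) * g (fun k => w (Fin.natAdd r k))
  obtain ⟨f2, hf2l, hf2r⟩ : ∃ f2 : Fin (r + r) → ℂ → ℝ,
      (∀ k, f2 (Fin.castAdd r k) = f k) ∧ ∀ k, f2 (Fin.natAdd r k) = f k :=
    ⟨Fin.append f f, fun k => Fin.append_left _ _ _, fun k => Fin.append_right _ _ _⟩
  have hgg : gg = fun w => ∏ l : Fin (r + r), f2 l (w l) := by
    funext w
    simp only [gg, hg]
    rw [Fin.prod_univ_add]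
    simp only [hf2l, hf2r]
  have hff : ∀ l : Fin (r + r), Continuous (f2 l) ∧ HasCompactSupport (f2 l) := by
    intro l
    induction l using Fin.addCases with
    | left k => rw [hf2l]; exact hf k
    | right k => rw [hf2r]; exact hf k
  have hggc : Continuous gg := by
    rw [hgg]
    exact (prod_cs f2 hff).1
  have hggs : HasCompactSupport gg := by
    rw [hgg]
    exact (prod_cs f2 hff).2
  have hlim2 : ∀ t, Tendsto (fun i => avg (orb U (y t i)) gg) atTop
      (nhds (∫ w, gg w ∂(m (r + r) (Z t)))) := by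
    intro t
    refine hK.khayutin (r + r) (Z t) (hZ t).1 p q c hpq hc (y t) d hgood (hys t) hdt ?_ ?_ gg
      hggc hggs
    · intro i
      rw [(hZ t).2.2]
      intro k
      rw [hyl, hyr]
      exact hρI i _ (hxB i k) t
    · intro Z' hs hr'
      rw [(hZ t).2.1] at hr'
      exact hPIG r r (fun i k => x i (ι k)) (y t) (hyl t) hgen Z' hs hr'
  have hlim3 : Tendsto (fun t => ∫ w, gg w ∂(m (r + r) (Z t))) atTop (nhds (c0 * c0)) := by
    have h1 := hK.hecke r Z (fun t => p ^ (K * t)) hZ (tend_pow p K hp hK0) gg hggc hggs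
    have h3 : ∫ w, gg w ∂(Measure.pi fun _ : Fin (r + r) => mu) = c0 * c0 := by
      rw [hgg, integral_fintype_prod_eq_prod, Fin.prod_univ_add, hc0]
      simp only [hf2l, hf2r]
    rw [h3] at h1
    exact h1
  -- the correlations
  let h : (Fin r → ℂ) → ℝ := fun u => g u - c0
  let C : ℕ → ℕ → ℝ := fun i t => avg (orb U (y t i))
    (fun w => h (fun k => w (Fin.castAdd r k)) * h (fun k => w (Fin.natAdd r k)))
  have hyfin : ∀ t i, (orb U (y t i)).Finite := fun t i =>
    prodj_orb_finite cm U (fun _ => d i) (y t i) fun l => ⟨hdneg i, hys t i l⟩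
  have hyne : ∀ t i, (orb U (y t i)).Nonempty := fun t i => ⟨y t i, 1, U.one_mem, rfl⟩
  have hCeq : ∀ i t, C i t = avg (orb U (y t i)) gg -
      c0 * avg (orb U (fun k => x i (ι k))) g - c0 * avg (orb U (fun k => x i (ι k))) g +
        c0 ^ 2 := by
    intro i t
    have h1 := avg_pair (hyfin t i) (hyne t i) (fun w => g (fun k => w (Fin.castAdd r k)))
      (fun w => g (fun k => w (Fin.natAdd r k))) c0
    have h2 := avg_proj U (y t i) (Fin.castAdd r) (hyfin t i) g
    have h3 := avg_proj U (y t i) (Fin.natAdd r) (hyfin t i) g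
    simp only [hyl] at h2
    simp only [hyr] at h3
    rw [orb_shift U (ρ i ^ t) (U.pow_mem (hρU i) t) (fun k => x i (ι k))] at h3
    rw [h2, h3] at h1
    exact h1
  have hClim : ∀ t, 1 ≤ t → Tendsto (fun i => C i t) atTop
      (nhds ((∫ w, gg w ∂(m (r + r) (Z t))) - c0 * c0)) := by
    intro t _
    simp only [hCeq]
    have h1 := (((hlim2 t).sub (hlim1.const_mul c0)).sub (hlim1.const_mul c0)).add_const (c0 ^ 2)
    have h2 : (∫ w, gg w ∂(m (r + r) (Z t))) - c0 * c0 =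
        (∫ w, gg w ∂(m (r + r) (Z t))) - c0 * c0 - c0 * c0 + c0 ^ 2 := by ring
    rw [h2]
    exact h1
  have hclim : Tendsto (fun t => (∫ w, gg w ∂(m (r + r) (Z t))) - c0 * c0) atTop (nhds 0) := by
    have := hlim3.sub_const (c0 * c0)
    simpa using this
  -- bounds
  obtain ⟨G, hG⟩ := (prod_cs f hf).2.exists_bound_of_continuous (prod_cs f hf).1
  have hhb : ∀ u, |h u| ≤ |G| + |c0| := by
    intro u
    have h1 : |g u| ≤ G := by
      have := hG u
      rwa [Real.norm_eq_abs] at this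
    exact (abs_sub _ _).trans (by linarith [le_abs_self G])
  have hC0 : ∃ M' : ℝ, ∀ i, |C i 0| ≤ M' := by
    refine ⟨(|G| + |c0|) * (|G| + |c0|), fun i => avg_le _ _ _ (by positivity) fun w => ?_⟩
    rw [abs_mul]
    exact mul_le_mul (hhb _) (hhb _) (abs_nonneg _) (by positivity)
  have hxfin : ∀ i, (orb U (x i)).Finite := fun i => prodj_orb_finite cm U (D i) (x i) (hx i)
  have hxs : ∀ i, ∀ w ∈ orb U (x i), ∀ l, w l ∈ sing (D i l) := by
    rintro i w ⟨u, _, rfl⟩ l
    exact (cm (D i l) (hx i l).1).2.1 u _ (hx i l).2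
  have key := hCES C _ (fun i => avg (orb U (x i)) (fun w => M⁻¹ * φ i w * h (fun k => w (ι k))))
    hClim hclim hC0 (fun i N hN => by
      refine hCOR n r U (ρ i) (hρU i) (x i) ι (hxfin i) ?_ h (fun w => M⁻¹ * φ i w) ?_ ?_ N hN
      · intro u _
        by_cases hu : FixesRoot (d i) u
        · left
          intro k t
          exact (cm (d i) (hdneg i)).2.2.2.1 u (ρ i ^ t) hu (pow_fixesRoot (hρR i) t) _ (hxB i k)
        · right
          intro k t
          exact (cm (d i) (hdneg i)).2.2.2.2 (ρ i ^ t) u (pow_fixesRoot (hρR i) t) hu _ (hxB i k)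
      · intro w
        rw [abs_mul, abs_of_pos (inv_pos.2 hM)]
        calc M⁻¹ * |φ i w| ≤ M⁻¹ * M := mul_le_mul_of_nonneg_left (hφ1 i w) (inv_pos.2 hM).le
          _ = 1 := inv_mul_cancel₀ hM.ne'
      · intro w hw t
        rw [hφ i (fun l => (ρ i ^ t) (w l)) w fun l hl =>
          pow_fix (hρA i l hl) t _ (hxs i w hw l)])
  have key2 := key.const_mul M
  rw [mul_zero] at key2
  refine key2.congr fun i => ?_
  rw [← prodj_avg_mul (hxfin i)]
  have e1 : (fun w => M * (M⁻¹ * φ i w * h (fun k => w (ι k)))) =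
      fun w => φ i w * ∏ k, f k (w (ι k)) + (-c0) * φ i w := by
    funext w
    have hMM : M * M⁻¹ = 1 := mul_inv_cancel₀ hM.ne'
    simp only [h, hg]
    calc M * (M⁻¹ * φ i w * (∏ k, f k (w (ι k)) - c0))
        = (M * M⁻¹) * (φ i w * (∏ k, f k (w (ι k)) - c0)) := by ring
      _ = _ := by rw [hMM]; ring
  rw [e1, avg_add (hxfin i), prodj_avg_mul (hxfin i)]
  ring

end Pool.Agent.Helper21.EQ
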