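import Pool.Agent.Helper21.EQ.Def

set_option autoImplicit false

open MeasureTheory Filter UpperHalfPlane Pool.Agent.Y818.IC

namespace Pool.Agent.Helper21.EQ

open scoped MatrixGroups ModularForm

theorem j_smul (γ : SL(2, ℤ)) (τ : ℍ) : j (γ • τ) = j τ := by
  have h4 : ModularForm.E₄ (γ • τ) = (denom (Matrix.SpecialLinearGroup.mapGL ℝ γ) τ) ^ (4 : ℤ) *
      ModularForm.E₄ τ := by
    exact SlashInvariantForm.slash_action_eqn'' (Γ := 𝒮ℒ) (f := ModularForm.E₄)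
      (γ := Matrix.SpecialLinearGroup.mapGL ℝ γ) (MonoidHom.mem_range.2 ⟨γ, rfl⟩) τ
  have h6 : ModularForm.E₆ (γ • τ) = (denom (Matrix.SpecialLinearGroup.mapGL ℝ γ) τ) ^ (6 : ℤ) *
      ModularForm.E₆ τ := by
    exact SlashInvariantForm.slash_action_eqn'' (Γ := 𝒮ℒ) (f := ModularForm.E₆)
      (γ := Matrix.SpecialLinearGroup.mapGL ℝ γ) (MonoidHom.mem_range.2 ⟨γ, rfl⟩) τ
  have hd : denom (Matrix.SpecialLinearGroup.mapGL ℝ γ) τ ≠ 0 := denom_ne_zero _ _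
  unfold j
  rw [ModularForm.discriminant_eq_E₄_cube_sub_E₆_sq, ModularForm.discriminant_eq_E₄_cube_sub_E₆_sq,
    h4, h6]
  set d := denom (Matrix.SpecialLinearGroup.mapGL ℝ γ) τ
  have e1 : ((d ^ (4 : ℤ) * ModularForm.E₄ τ) ^ 3 - (d ^ (6 : ℤ) * ModularForm.E₆ τ) ^ 2) / 1728 =
      d ^ 12 * ((ModularForm.E₄ τ ^ 3 - ModularForm.E₆ τ ^ 2) / 1728) := by
    norm_cast
    ring
  have e2 : (d ^ (4 : ℤ) * ModularForm.E₄ τ) ^ 3 = d ^ 12 * ModularForm.E₄ τ ^ 3 := by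
    norm_cast
    ring
  rw [e1, e2]
  exact mul_div_mul_left _ _ (pow_ne_zero _ hd)

/-- the real and imaginary part of a root -/
theorem root_parts {a b c D : ℤ} (hD : b ^ 2 - 4 * a * c = D) {τ : ℍ}
    (h : (a : ℂ) * (τ : ℂ) ^ 2 + (b : ℂ) * (τ : ℂ) + (c : ℂ) = 0) :
    2 * (a : ℝ) * τ.re = -b ∧ 4 * (a : ℝ) ^ 2 * τ.im ^ 2 = -D := by
  have hre := congrArg Complex.re h
  have him := congrArg Complex.im h
  simp [pow_two] at hre him
  have hy := τ.im_pos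
  have h1 : 2 * (a : ℝ) * τ.re + b = 0 := by
    have : (2 * (a : ℝ) * τ.re + b) * τ.im = 0 := by linarith
    rcases mul_eq_zero.1 this with h | h
    · exact h
    · exact absurd h hy.ne'
  refine ⟨by linarith, ?_⟩
  have hD' : (b : ℝ) ^ 2 - 4 * a * c = D := by exact_mod_cast hD
  have h2 : (b : ℝ) = -(2 * (a : ℝ) * τ.re) := by linarith
  rw [h2] at hre
  have hc : (c : ℝ) = a * (τ.re ^ 2 + τ.im ^ 2) := by linarith [hre]
  rw [← hD', h2, hc]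
  ring

theorem cm_fd {D : ℤ} (hD : D < 0) {a b c : ℤ} (ha : 0 < a) (hdisc : b ^ 2 - 4 * a * c = D)
    {τ : ℍ} (h : (a : ℂ) * (τ : ℂ) ^ 2 + (b : ℂ) * (τ : ℂ) + (c : ℂ) = 0) (γ : SL(2, ℤ)) :
    ∃ a' b' c' : ℤ, 0 < a' ∧ b' ^ 2 - 4 * a' * c' = D ∧
      (a' : ℂ) * ((γ • τ : ℍ) : ℂ) ^ 2 + (b' : ℂ) * ((γ • τ : ℍ) : ℂ) + (c' : ℂ) = 0 := by
  have hdet : γ 0 0 * γ 1 1 - γ 0 1 * γ 1 0 = 1 := by
    have := γ.det_coe
    rw [Matrix.det_fin_two] at this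
    exact this
  set p := γ 0 0
  set q := γ 0 1
  set r := γ 1 0
  set s := γ 1 1
  have hne : ((r : ℂ) * τ + s) ≠ 0 := by
    have := denom_ne_zero (Matrix.SpecialLinearGroup.mapGL ℝ γ) τ
    simpa [denom] using this
  have hact : ((γ • τ : ℍ) : ℂ) * ((r : ℂ) * τ + s) = (p : ℂ) * τ + q := by
    rw [coe_specialLinearGroup_apply]
    simp only [algebraMap_int_eq, eq_intCast, Complex.ofReal_intCast]
    exact div_mul_cancel₀ _ hne
  refine ⟨a * s ^ 2 - b * s * r + c * r ^ 2, -2 * a * s * q + b * (s * p + q * r) - 2 * c * r * p,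
    a * q ^ 2 - b * q * p + c * p ^ 2, ?_, ?_, ?_⟩
  · have h1 : 4 * a * (a * s ^ 2 - b * s * r + c * r ^ 2) = (2 * a * s - b * r) ^ 2 - D * r ^ 2 := by
      rw [← hdisc]; ring
    have h2 : 0 < (2 * a * s - b * r) ^ 2 - D * r ^ 2 := by
      by_cases hr : r = 0
      · have hs : s ≠ 0 := by
          intro hs
          rw [hr, hs] at hdet
          simp at hdet
        rw [hr]
        have : 0 < (2 * a * s) ^ 2 := by positivity
        simpa using this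
      · have h3 : 0 < r ^ 2 := by positivity
        nlinarith [sq_nonneg (2 * a * s - b * r)]
    by_contra hc
    push Not at hc
    nlinarith
  · have e : (-2 * a * s * q + b * (s * p + q * r) - 2 * c * r * p) ^ 2 -
        4 * (a * s ^ 2 - b * s * r + c * r ^ 2) * (a * q ^ 2 - b * q * p + c * p ^ 2) =
        (b ^ 2 - 4 * a * c) * (p * s - q * r) ^ 2 := by ring
    rw [e, hdet, hdisc]; ring
  · have key : ((a * s ^ 2 - b * s * r + c * r ^ 2 : ℤ) : ℂ) * ((γ • τ : ℍ) : ℂ) ^ 2 +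
        ((-2 * a * s * q + b * (s * p + q * r) - 2 * c * r * p : ℤ) : ℂ) * ((γ • τ : ℍ) : ℂ) +
        ((a * q ^ 2 - b * q * p + c * p ^ 2 : ℤ) : ℂ) = 0 := by
      have h2 : (((a * s ^ 2 - b * s * r + c * r ^ 2 : ℤ) : ℂ) * ((γ • τ : ℍ) : ℂ) ^ 2 +
        ((-2 * a * s * q + b * (s * p + q * r) - 2 * c * r * p : ℤ) : ℂ) * ((γ • τ : ℍ) : ℂ) +
        ((a * q ^ 2 - b * q * p + c * p ^ 2 : ℤ) : ℂ)) * ((r : ℂ) * τ + s) ^ 2 = 0 := by
        have e1 : (((a * s ^ 2 - b * s * r + c * r ^ 2 : ℤ) : ℂ) * ((γ • τ : ℍ) : ℂ) ^ 2 +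
          ((-2 * a * s * q + b * (s * p + q * r) - 2 * c * r * p : ℤ) : ℂ) * ((γ • τ : ℍ) : ℂ) +
          ((a * q ^ 2 - b * q * p + c * p ^ 2 : ℤ) : ℂ)) * ((r : ℂ) * τ + s) ^ 2 =
          ((a * s ^ 2 - b * s * r + c * r ^ 2 : ℤ) : ℂ) *
            (((γ • τ : ℍ) : ℂ) * ((r : ℂ) * τ + s)) ^ 2 +
          ((-2 * a * s * q + b * (s * p + q * r) - 2 * c * r * p : ℤ) : ℂ) *
            (((γ • τ : ℍ) : ℂ) * ((r : ℂ) * τ + s)) * ((r : ℂ) * τ + s) +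
          ((a * q ^ 2 - b * q * p + c * p ^ 2 : ℤ) : ℂ) * ((r : ℂ) * τ + s) ^ 2 := by ring
        rw [e1, hact]
        push_cast
        have hdetC : (p : ℂ) * s - q * r = 1 := by exact_mod_cast hdet
        have e2 : ((a : ℂ) * s ^ 2 - b * s * r + c * r ^ 2) * (p * τ + q) ^ 2 +
          (-2 * a * s * q + b * (s * p + q * r) - 2 * c * r * p) * (p * τ + q) * (r * τ + s) +
          (a * q ^ 2 - b * q * p + c * p ^ 2) * (r * τ + s) ^ 2 =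
          ((p : ℂ) * s - q * r) ^ 2 * (a * (τ : ℂ) ^ 2 + b * τ + c) := by ring
        rw [e2, h, mul_zero]
      rcases mul_eq_zero.1 h2 with h3 | h3
      · exact h3
      · exact absurd (pow_eq_zero_iff (by norm_num) |>.1 h3) hne
    exact key

theorem sing_finite {D : ℤ} (hD : D < 0) : (sing D).Finite := by
  set M : ℤ := D ^ 2 - D with hM
  have hbox : (⋃ t ∈ (Set.Icc (-M) M ×ˢ (Set.Icc (-M) M ×ˢ Set.Icc (-M) M) : Set (ℤ × ℤ × ℤ)),
      {z : ℂ | ∃ τ : ℍ, 0 < t.1 ∧ t.2.1 ^ 2 - 4 * t.1 * t.2.2 = D ∧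
        (t.1 : ℂ) * (τ : ℂ) ^ 2 + (t.2.1 : ℂ) * (τ : ℂ) + (t.2.2 : ℂ) = 0 ∧ z = j τ}).Finite := by
    refine Set.Finite.biUnion ((Set.finite_Icc _ _).prod ((Set.finite_Icc _ _).prod
      (Set.finite_Icc _ _))) fun t _ => ?_
    apply Set.Subsingleton.finite
    rintro z ⟨τ, ha, hd, h, rfl⟩ w ⟨σ, -, -, h', rfl⟩
    obtain ⟨h1, h2⟩ := root_parts hd h
    obtain ⟨h3, h4⟩ := root_parts hd h'
    have ha' : (0 : ℝ) < t.1 := by exact_mod_cast ha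
    have hre : τ.re = σ.re := by
      have : 2 * (t.1 : ℝ) * τ.re = 2 * (t.1 : ℝ) * σ.re := by rw [h1, h3]
      exact mul_left_cancel₀ (by positivity) this
    have him : τ.im = σ.im := by
      have h5 : 4 * (t.1 : ℝ) ^ 2 * τ.im ^ 2 = 4 * (t.1 : ℝ) ^ 2 * σ.im ^ 2 := by rw [h2, h4]
      have h6 : τ.im ^ 2 = σ.im ^ 2 := mul_left_cancel₀ (by positivity) h5
      nlinarith [τ.im_pos, σ.im_pos]
    have : τ = σ := UpperHalfPlane.ext (Complex.ext hre him)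
    rw [this]
  refine hbox.subset ?_
  rintro z ⟨τ, ⟨a, b, c, ha, -, hd, h⟩, rfl⟩
  obtain ⟨γ, hγ⟩ := ModularGroup.exists_smul_mem_fd τ
  obtain ⟨a', b', c', ha', hd', h'⟩ := cm_fd hD ha hd h γ
  obtain ⟨h1, h2⟩ := root_parts hd' h'
  have ha1 : (0 : ℝ) < a' := by exact_mod_cast ha'
  have h3 : 3 ≤ 4 * (γ • τ).im ^ 2 := ModularGroup.three_le_four_mul_im_sq_of_mem_fd hγ
  have h4 : 3 * (a' : ℝ) ^ 2 ≤ -D := by
    rw [← h2]; nlinarith [sq_nonneg (a' : ℝ)]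
  have h4' : 3 * a' ^ 2 ≤ -D := by exact_mod_cast h4
  have h5 : |(b' : ℝ)| ≤ a' := by
    have e : (b' : ℝ) = -(2 * (a' : ℝ) * (γ • τ).re) := by linarith
    rw [e, abs_neg, abs_mul, abs_mul, abs_two, abs_of_pos ha1]
    have := hγ.2
    nlinarith
  have h5' : |b'| ≤ a' := by exact_mod_cast h5
  obtain ⟨hb1, hb2⟩ := abs_le.1 h5'
  have hbb : b' ^ 2 ≤ a' ^ 2 := by nlinarith
  have hD1 : 1 ≤ -D := by linarith
  have hMpos : -D ≤ M := by nlinarith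
  have ha2 : a' ≤ -D := by nlinarith
  have hc1 : 4 * a' * c' = b' ^ 2 - D := by linarith
  have hc2 : 0 < c' := by
    by_contra hc
    push Not at hc
    nlinarith [sq_nonneg b']
  have hc3 : c' ≤ M := by nlinarith
  simp only [Set.mem_iUnion]
  refine ⟨(a', b', c'), ⟨⟨by linarith, by linarith⟩, ⟨⟨by linarith, by linarith⟩, ⟨by linarith, hc3⟩⟩⟩,
    γ • τ, ha', hd', h', ?_⟩
  exact (j_smul γ τ).symm

end Pool.Agent.Helper21.EQ
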