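import Pool.Graph.R_pool_sql_team_seeded_1acbe0a2.Y818.IC.Def

/-!
# Special points of `Y(1)ⁿ` with complex multiplication by one maximal order: definitions

`Y(1)ⁿ = ℂⁿ` by the modular function `j`, and the special points are the vectors of singular
moduli (library `Pool.Agent.Y818.IC.Def`: `j`, `sing D`, `mu`, `orb`, `avg`).
-/

set_option autoImplicit false

open MeasureTheory Filter UpperHalfPlane Pool.Agent.Y818.IC

namespace Pool.Agent.Helper21.EQ

/-- Negative fundamental discriminants. -/
def IsFund (D : ℤ) : Prop :=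
  D < 0 ∧ ((D % 4 = 1 ∧ Squarefree D) ∨
    ∃ m : ℤ, D = 4 * m ∧ (m % 4 = 2 ∨ m % 4 = 3) ∧ Squarefree m)

/-- `p` is an odd prime which splits in `ℚ(√D)`. -/
def Splits (p : ℕ) (D : ℤ) : Prop :=
  p.Prime ∧ p ≠ 2 ∧ ¬ (p : ℤ) ∣ D ∧ ∃ x : ℤ, (p : ℤ) ∣ x ^ 2 - D

/-- The `L`-function of an odd primitive quadratic character modulo `N` has a zero in the
interval `[1 - c / log N, 1)`.  (If `N = |D|` for a negative fundamental discriminant `D`, there is
exactly one such character, that of `ℚ(√D)`.) -/
def HasZero (c : ℝ) (N : ℕ) : Prop :=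
  ∃ (_ : NeZero N) (χ : DirichletCharacter ℂ N) (β : ℝ), χ.IsPrimitive ∧ χ ^ 2 = 1 ∧
    χ (-1) = -1 ∧ 1 - c / Real.log N ≤ β ∧ β < 1 ∧ χ.LFunction (β : ℂ) = 0

/-- `D` is a negative fundamental discriminant, two different odd primes `p, q ≤ k` split in
`ℚ(√D)`, and the `L`-function of this field has no zero in `[1 - 1 / (k log |D|), 1)`. -/
def Good (k : ℕ) (D : ℤ) : Prop :=
  IsFund D ∧ (∃ p q : ℕ, p ≠ q ∧ p ≤ k ∧ q ≤ k ∧ Splits p D ∧ Splits q D) ∧
    ¬ HasZero (1 / k) D.natAbs

/-- `σ = (a τ + b) / (c τ + d)`. -/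
def Moebius (g : Matrix (Fin 2) (Fin 2) ℚ) (τ σ : ℍ) : Prop :=
  (σ : ℂ) * (((g 1 0 : ℚ) : ℂ) * (τ : ℂ) + ((g 1 1 : ℚ) : ℂ)) =
    ((g 0 0 : ℚ) : ℂ) * (τ : ℂ) + ((g 0 1 : ℚ) : ℂ)

/-- The data of a special subvariety of `Y(1)ⁿ`: the coordinates `k` with `blk k = none` are
constant, equal to the singular modulus `c k`; the coordinates `k` with `blk k = some b`,
`1 ≤ b ≤ r`, are `j (g k τ_b)`, where `g k` is a rational matrix with positive determinant and
`τ_b ∈ ℍ` is arbitrary.  The dimension is `r`. -/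
structure Sub (n : ℕ) where
  r : ℕ
  blk : Fin n → Option (Fin r)
  surj : ∀ b : Fin r, ∃ k, blk k = some b
  c : Fin n → ℂ
  cm : ∀ k, ∃ D : ℤ, D < 0 ∧ c k ∈ sing D
  g : Fin n → Matrix (Fin 2) (Fin 2) ℚ
  det : ∀ k, 0 < (g k).det

/-- The special subvariety, a subset of `Y(1)ⁿ = ℂⁿ`. -/
def Sub.carrier {n : ℕ} (Z : Sub n) : Set (Fin n → ℂ) :=
  {w | ∃ τ : Fin Z.r → ℍ, ∀ k, (Z.blk k = none → w k = Z.c k) ∧
    ∀ b, Z.blk k = some b → ∃ σ : ℍ, Moebius (Z.g k) (τ b) σ ∧ w k = j σ}

/-- No coordinate is constant. -/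
def Sub.Strong {n : ℕ} (Z : Sub n) : Prop := ∀ k, Z.blk k ≠ none

/-- Every proper special subvariety contains only finitely many members of the sequence. -/
def Generic {n : ℕ} (x : ℕ → Fin n → ℂ) : Prop :=
  ∀ Z : Sub n, Z.carrier ≠ Set.univ → {i | x i ∈ Z.carrier}.Finite

/-- The Galois orbits over `F` of the `x i` are equidistributed in `Y(1)ⁿ = ℂⁿ` with respect to the
product of the hyperbolic probability measures. -/
def Equidistributed {n : ℕ} (F : IntermediateField ℚ ℂ) (x : ℕ → Fin n → ℂ) : Prop :=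
  ∀ f : (Fin n → ℂ) → ℝ, Continuous f → HasCompactSupport f →
    Tendsto (fun i => avg (orb F.fixingSubgroup (x i)) f) atTop
      (nhds (∫ w, f w ∂(Measure.pi fun _ : Fin n => mu)))

/-- The published theorems on special points which are used, for the number field `F` and the
dimension `n`; `m Z` is, for a special subvariety `Z` without constant coordinates, its canonical
probability measure (the image of the product of the hyperbolic measures under the
parametrisation by `τ`), averaged over the conjugates of `Z` over `F`. -/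
structure Known (F : IntermediateField ℚ ℂ) (n : ℕ) (m : Sub n → Measure (Fin n → ℂ)) : Prop where
  /-- the canonical measures are probability measures -/
  prob : ∀ Z : Sub n, Z.Strong → IsProbabilityMeasure (m Z)
  /-- Khayutin's theorem (Joint equidistribution of CM points, Ann. of Math. 189 (2019)), for the
  product of modular curves which parametrises `Z`: special points with one fundamental
  discriminant for all coordinates, in a field in which two *fixed* primes `p`, `q` split and whose
  zeta function has no exceptional zero, have equidistributed Galois orbits in `Z` if no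
  special subvariety of smaller dimension contains infinitely many of them. -/
  khayutin : ∀ Z : Sub n, Z.Strong → ∀ (p q : ℕ) (c : ℝ), p ≠ q → 0 < c →
    ∀ (x : ℕ → Fin n → ℂ) (D : ℕ → ℤ),
      (∀ i, IsFund (D i) ∧ Splits p (D i) ∧ Splits q (D i) ∧ ¬ HasZero c (D i).natAbs) →
      (∀ i k, x i k ∈ sing (D i)) → Tendsto (fun i => (D i).natAbs) atTop atTop →
      (∀ i, x i ∈ Z.carrier) →
      (∀ Z' : Sub n, Z'.Strong → Z'.r < Z.r → {i | x i ∈ Z'.carrier}.Finite) →
      ∀ f : (Fin n → ℂ) → ℝ, Continuous f → HasCompactSupport f →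
        Tendsto (fun i => avg (orb F.fixingSubgroup (x i)) f) atTop (nhds (∫ w, f w ∂(m Z)))
  /-- The theorem of Clozel and Ullmo (Équidistribution de sous-variétés spéciales, Ann. of Math.
  161 (2005)): the measures of a generic sequence of special subvarieties without constant
  coordinates converge to that of the ambient variety. -/
  clozelUllmo : ∀ Z : ℕ → Sub n, (∀ i, (Z i).Strong) →
    (∀ Z' : Sub n, Z'.carrier ≠ Set.univ → {i | (Z i).carrier ⊆ Z'.carrier}.Finite) →
    ∀ f : (Fin n → ℂ) → ℝ, Continuous f → HasCompactSupport f →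
      Tendsto (fun i => ∫ w, f w ∂(m (Z i))) atTop
        (nhds (∫ w, f w ∂(Measure.pi fun _ : Fin n => mu)))

/-- Landau's theorem on exceptional zeros (1918): for a suitable `c > 0`, if odd primitive
quadratic characters modulo `N < N'` both have a zero in `[1 - c / log N, 1)` and
`[1 - c / log N', 1)`, then `N' ≥ N²`. -/
def Landau : Prop :=
  ∃ c : ℝ, 0 < c ∧ ∀ N N' : ℕ, N < N' → HasZero c N → HasZero c N' → N ^ 2 ≤ N'

end Pool.Agent.Helper21.EQ
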