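import Pool.Agent.Helper21.EQ.N

set_option autoImplicit false

open MeasureTheory Filter

namespace Pool.Agent.Helper21.EQ

/-- For large `k` all but a small proportion of the fundamental discriminants are good. -/
theorem density_k (hL : Landau) (ε : ℝ) (hε : 0 < ε) : ∃ k0 : ℕ, ∀ k : ℕ, k0 ≤ k →
    ∀ᶠ X : ℕ in atTop,
      (({D : ℤ | IsFund D ∧ D.natAbs ≤ X ∧ ¬ Good k D} : Set ℤ).ncard : ℝ) ≤ ε * X := by
  obtain ⟨c, hc, hL⟩ := hL
  have hlim : Tendsto (fun t : ℕ => (t : ℝ) * (2 / 3) ^ t) atTop (nhds 0) :=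
    tendsto_self_mul_const_pow_of_lt_one (by norm_num) (by norm_num)
  obtain ⟨t, ht1, ht2⟩ := ((hlim.eventually (gt_mem_nhds (show (0 : ℝ) < ε / 4 by positivity))).and
    (eventually_ge_atTop 1)).exists
  obtain ⟨S, hS1, hS2⟩ : ∃ S : Finset ℕ, (∀ p ∈ S, p.Prime ∧ p ≠ 2) ∧ S.card = t := by
    have h1 : ({p : ℕ | p.Prime} \ {2}).Infinite :=
      Nat.infinite_setOfPred_prime.sdiff (Set.finite_singleton 2)
    obtain ⟨S, hS, hc⟩ := h1.exists_subset_card_eq t
    exact ⟨S, fun p hp => ⟨(hS hp).1, (hS hp).2⟩, hc⟩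
  have hne : S.Nonempty := by
    rw [← Finset.card_pos, hS2]
    exact ht2
  obtain ⟨k0, hk0⟩ := exists_nat_ge (1 / c)
  refine ⟨k0 + 1 + ∑ p ∈ S, p, fun k hk => ?_⟩
  have hkS : ∀ p ∈ S, p ≤ k := by
    intro p hp
    have := Finset.single_le_sum (f := fun p : ℕ => p) (fun _ _ => Nat.zero_le _) hp
    omega
  have hkc : 1 / (k : ℝ) ≤ c := by
    have h0 : k0 + 1 ≤ k := by
      have : 0 ≤ ∑ p ∈ S, p := Nat.zero_le _
      omega
    have h1 : (k0 : ℝ) + 1 ≤ k := by exact_mod_cast h0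
    have h2 : (0 : ℝ) < k := by
      have : (0 : ℝ) ≤ k0 := by positivity
      linarith
    rw [div_le_iff₀ h2]
    rw [div_le_iff₀ hc] at hk0
    nlinarith
  set P : ℝ := ∏ p ∈ S, (p : ℝ) with hP
  have hP0 : 0 ≤ P := Finset.prod_nonneg fun _ _ => by positivity
  have hb := fun X => bad_le hL (fun _ => k) S hS1 hne k hkS hkc 0 (fun _ _ => le_rfl) X
  rw [hS2] at hb
  have hsq : Tendsto (fun X : ℕ => (t * P + 2 + Nat.sqrt X : ℝ) / X) atTop (nhds 0) := by
    have h1 : Tendsto (fun X : ℕ => (t * P + 2 : ℝ) / X) atTop (nhds 0) :=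
      tendsto_const_div_atTop_nhds_zero_nat _
    have h2 : Tendsto (fun X : ℕ => 1 / Real.sqrt X) atTop (nhds 0) := by
      have := (tendsto_inv_atTop_zero.comp (Real.tendsto_sqrt_atTop)).comp
        (tendsto_natCast_atTop_atTop (R := ℝ))
      refine this.congr fun X => ?_
      simp
    have h3 := h1.add h2
    rw [add_zero] at h3
    refine squeeze_zero' (Eventually.of_forall fun X => by positivity) ?_ h3
    filter_upwards [eventually_gt_atTop 0] with X hX
    have hX' : (0 : ℝ) < X := by exact_mod_cast hX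
    have h4 : (Nat.sqrt X : ℝ) ≤ Real.sqrt X := Real.nat_sqrt_le_real_sqrt
    have h5 : (Nat.sqrt X : ℝ) / X ≤ 1 / Real.sqrt X := by
      rw [div_le_div_iff₀ hX' (Real.sqrt_pos.2 hX')]
      have h6 := Real.mul_self_sqrt hX'.le
      nlinarith [Real.sqrt_nonneg (X : ℝ)]
    rw [add_div]
    linarith
  have h23 : (t : ℝ) * (2 / 3) ^ (t - 1) ≤ ε * (3 / 8) := by
    have h1 : ((2 : ℝ) / 3) ^ t = (2 / 3) ^ (t - 1) * (2 / 3) := by
      rw [← pow_succ]
      congr 1
      omega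
    rw [h1] at ht1
    linarith
  filter_upwards [hsq.eventually (gt_mem_nhds (show (0 : ℝ) < ε / 4 by positivity)),
    eventually_gt_atTop 0] with X hX hX0
  have hX' : (0 : ℝ) < X := by exact_mod_cast hX0
  rw [div_lt_iff₀ hX'] at hX
  have h1 := hb X
  have h2 : (t : ℝ) * (2 / 3) ^ (t - 1) * X ≤ ε * (3 / 8) * X :=
    mul_le_mul_of_nonneg_right h23 hX'.le
  have h3 : (((Bad (fun _ => k) X).ncard : ℕ) : ℝ) ≤ ε * X := by
    push_cast at h1
    nlinarith
  exact h3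

end Pool.Agent.Helper21.EQ
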