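import Mathlib

set_option autoImplicit false

namespace Pool.Agent.Helper21.EQ

open IntermediateField

theorem prim {K L : Type*} [Field K] [Field L] [Algebra K L] [CharZero K]
    (F : IntermediateField K L) (hF : FiniteDimensional K F) :
    ∃ α : L, IsAlgebraic K α ∧ K⟮α⟯ = F := by
  obtain ⟨α, hα⟩ := Field.exists_primitive_element K F
  refine ⟨(α : L), ?_, ?_⟩
  · have : IsAlgebraic K α := Algebra.IsAlgebraic.isAlgebraic α
    exact this.algebraMap
  · have h2 := IntermediateField.lift_adjoin_simple K F α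
    rw [hα, IntermediateField.lift_top] at h2
    exact h2.symm

theorem countable_nf : {F : IntermediateField ℚ ℂ | FiniteDimensional ℚ F}.Countable := by
  have h1 : {α : ℂ | IsAlgebraic ℚ α}.Countable := Algebraic.countable ℚ ℂ
  refine (h1.image fun α => ℚ⟮α⟯).mono ?_
  intro F hF
  obtain ⟨α, h1, h2⟩ := prim F hF
  exact ⟨α, h1, h2⟩

/-- an enumeration of all pairs of a number field and a dimension -/
theorem enum : ∃ e : ℕ → IntermediateField ℚ ℂ × ℕ,
    ∀ (F : IntermediateField ℚ ℂ) (n : ℕ), FiniteDimensional ℚ F → ∃ s, e s = (F, n) := by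
  have h : ({F : IntermediateField ℚ ℂ | FiniteDimensional ℚ F} ×ˢ (Set.univ : Set ℕ)).Countable :=
    countable_nf.prod (Set.countable_univ)
  have hne : ({F : IntermediateField ℚ ℂ | FiniteDimensional ℚ F} ×ˢ (Set.univ : Set ℕ)).Nonempty :=
    ⟨(⊥, 0), by
      constructor
      · exact (inferInstance : FiniteDimensional ℚ (⊥ : IntermediateField ℚ ℂ))
      · trivial⟩
  obtain ⟨e, he⟩ := h.exists_eq_range hne
  refine ⟨e, fun F n hF => ?_⟩
  have : (F, n) ∈ Set.range e := by
    rw [← he]
    exact ⟨hF, trivial⟩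
  exact this

end Pool.Agent.Helper21.EQ
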