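import Pool.Agent.Helper21.EQ.Def

set_option autoImplicit false

open Filter

namespace Pool.Agent.Helper21.EQ

/-- residues modulo `p` which do not split -/
noncomputable def AA (p : ℕ) : Set (ZMod p) := {a | ¬ (a ≠ 0 ∧ IsSquare a)}

theorem mem_AA {p : ℕ} (hp : p.Prime) (h2 : p ≠ 2) {D : ℤ} (h : ¬ Splits p D) :
    (D : ZMod p) ∈ AA p := by
  rintro ⟨h1, r, hr⟩
  apply h
  obtain ⟨x, rfl⟩ := ZMod.intCast_surjective r
  refine ⟨hp, h2, fun hd => h1 ((ZMod.intCast_zmod_eq_zero_iff_dvd D p).2 hd), x, ?_⟩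
  rw [← ZMod.intCast_zmod_eq_zero_iff_dvd]
  push_cast
  rw [hr]
  ring

theorem card_AA {p : ℕ} (hp : p.Prime) (h2 : p ≠ 2) : 3 * (AA p).ncard ≤ 2 * p := by
  classical
  have : Fact p.Prime := ⟨hp⟩
  have : NeZero p := ⟨hp.ne_zero⟩
  set Q : Finset (ZMod p) := Finset.univ.filter fun a => a ≠ 0 ∧ IsSquare a with hQ
  have h3 : (Finset.univ.filter fun a : ZMod p => a ≠ 0).card = p - 1 := by
    rw [Finset.filter_ne' Finset.univ 0, Finset.card_erase_of_mem (Finset.mem_univ _),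
      Finset.card_univ, ZMod.card]
  have h4 : (Finset.univ.filter fun a : ZMod p => a ≠ 0).card ≤ 2 * Q.card := by
    have h5 := Finset.card_le_mul_card_image (f := fun a : ZMod p => a * a)
      (Finset.univ.filter fun a : ZMod p => a ≠ 0) 2 (by
        intro b hb
        obtain ⟨a0, -, rfl⟩ := Finset.mem_image.1 hb
        refine (Finset.card_le_card (t := {a0, -a0}) ?_).trans Finset.card_le_two
        intro a ha
        have h6 : a * a = a0 * a0 := (Finset.mem_filter.1 ha).2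
        rcases mul_self_eq_mul_self_iff.1 h6 with h | h <;> simp [h])
    refine h5.trans (Nat.mul_le_mul_left 2 (Finset.card_le_card ?_))
    intro b hb
    obtain ⟨a, ha, rfl⟩ := Finset.mem_image.1 hb
    have ha0 := (Finset.mem_filter.1 ha).2
    exact Finset.mem_filter.2 ⟨Finset.mem_univ _, mul_ne_zero ha0 ha0, a, rfl⟩
  have h7 : (AA p).ncard + Q.card = p := by
    have h8 : AA p = ((Finset.univ.filter fun a : ZMod p => ¬ (a ≠ 0 ∧ IsSquare a) :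
        Finset (ZMod p)) : Set (ZMod p)) := by
      ext a
      simp [AA]
    rw [h8, Set.ncard_coe_finset, hQ, add_comm, Finset.card_filter_add_card_filter_not,
      Finset.card_univ, ZMod.card]
  have hp3 : 3 ≤ p := by
    have := hp.two_le
    omega
  omega

theorem count_nonsplit (S : Finset ℕ) (hS : ∀ p ∈ S, p.Prime ∧ p ≠ 2) (X : ℕ) :
    (({n : ℕ | n ≤ X ∧ ∀ p ∈ S, ¬ Splits p (-(n : ℤ))}.ncard : ℕ) : ℝ) ≤
      (2 / 3) ^ S.card * X + ∏ p ∈ S, (p : ℝ) := by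
  classical
  set M : ℕ := ∏ p ∈ S, p with hM
  have hMpos : 0 < M := Finset.prod_pos fun p hp => (hS p hp).1.pos
  have hfin : ∀ p : S, (AA p.1).Finite := fun p => by
    have : NeZero p.1 := ⟨(hS p.1 p.2).1.ne_zero⟩
    exact Set.toFinite _
  let T : Finset (ℕ × (∀ p : S, ZMod p.1)) :=
    Finset.range (X / M + 1) ×ˢ Fintype.piFinset fun p : S => (hfin p).toFinset
  have hT : T.card = (X / M + 1) * ∏ p : S, (AA p.1).ncard := by
    simp only [T, Finset.card_product, Finset.card_range, Fintype.card_piFinset]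
    congr 1
    refine Finset.prod_congr rfl fun p _ => ?_
    rw [Set.ncard_eq_toFinset_card _ (hfin p)]
  have hle : {n : ℕ | n ≤ X ∧ ∀ p ∈ S, ¬ Splits p (-(n : ℤ))}.ncard ≤ T.card := by
    rw [← Set.ncard_coe_finset]
    refine Set.ncard_le_ncard_of_injOn
      (fun n : ℕ => (n / M, fun p : S => ((-(n : ℤ) : ℤ) : ZMod p.1))) ?_ ?_ (Finset.finite_toSet T)
    · rintro n ⟨h1, h2⟩
      simp only [T, Finset.mem_coe, Finset.mem_product, Finset.mem_range, Fintype.mem_piFinset,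
        Set.Finite.mem_toFinset]
      refine ⟨Nat.lt_succ_of_le (Nat.div_le_div_right h1), fun p => ?_⟩
      exact mem_AA (hS p.1 p.2).1 (hS p.1 p.2).2 (h2 p.1 p.2)
    · intro n _ n' _ h
      simp only [Prod.mk.injEq] at h
      obtain ⟨h1, h2⟩ := h
      have h3 : (M : ℤ) ∣ (n : ℤ) - n' := by
        rw [hM]
        push_cast
        refine Finset.prod_dvd_of_coprime ?_ ?_
        · intro p hp q hq hpq
          exact Int.isCoprime_iff_gcd_eq_one.2 (by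
            simpa using (Nat.coprime_primes (hS p hp).1 (hS q hq).1).2 hpq)
        · intro p hp
          have h4 := congrFun h2 ⟨p, hp⟩
          simp only at h4
          have h5 : ((n : ℤ) : ZMod p) = ((n' : ℤ) : ZMod p) := by
            push_cast at h4 ⊢
            exact neg_injective h4
          have h6 := (ZMod.intCast_eq_intCast_iff_dvd_sub (n' : ℤ) (n : ℤ) p).1 h5.symm
          exact h6
      have h7 : n ≡ n' [MOD M] := by
        have : (n' : ℤ) ≡ n [ZMOD M] := (Int.modEq_iff_dvd).2 h3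
        exact ((Int.natCast_modEq_iff).1 this).symm
      have h8 : n % M = n' % M := h7
      rw [← Nat.div_add_mod n M, ← Nat.div_add_mod n' M, h1, h8]
  have hprod : ((∏ p : S, (AA p.1).ncard : ℕ) : ℝ) ≤ (2 / 3) ^ S.card * M := by
    have h1 : ((∏ p : S, (AA p.1).ncard : ℕ) : ℝ) ≤ ∏ p : S, ((2 / 3 : ℝ) * p.1) := by
      push_cast
      refine Finset.prod_le_prod (fun _ _ => by positivity) fun p _ => ?_
      have := card_AA (hS p.1 p.2).1 (hS p.1 p.2).2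
      have h2 : (3 : ℝ) * (AA p.1).ncard ≤ 2 * p.1 := by exact_mod_cast this
      linarith
    refine h1.trans (le_of_eq ?_)
    rw [Finset.prod_mul_distrib, Finset.prod_const, Finset.card_univ, Fintype.card_coe, hM]
    congr 1
    push_cast
    exact Finset.prod_coe_sort S (fun p => (p : ℝ))
  have hM' : (∏ p ∈ S, (p : ℝ)) = M := by rw [hM]; push_cast; rfl
  have hMr : (0 : ℝ) < M := by exact_mod_cast hMpos
  have hXM : ((X / M : ℕ) : ℝ) ≤ X / M := Nat.cast_div_le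
  have hpow : (2 / 3 : ℝ) ^ S.card ≤ 1 := pow_le_one₀ (by norm_num) (by norm_num)
  calc (({n : ℕ | n ≤ X ∧ ∀ p ∈ S, ¬ Splits p (-(n : ℤ))}.ncard : ℕ) : ℝ)
      ≤ (T.card : ℝ) := by exact_mod_cast hle
    _ = ((X / M : ℕ) + 1 : ℝ) * ((∏ p : S, (AA p.1).ncard : ℕ) : ℝ) := by
        rw [hT]; push_cast; ring
    _ ≤ ((X : ℝ) / M + 1) * ((2 / 3) ^ S.card * M) := by gcongr
    _ = (2 / 3) ^ S.card * X + (2 / 3) ^ S.card * M := by field_simp
    _ ≤ (2 / 3) ^ S.card * X + 1 * M := by gcongr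
    _ = (2 / 3) ^ S.card * X + ∏ p ∈ S, (p : ℝ) := by rw [hM', one_mul]

theorem count_bad (S : Finset ℕ) (hS : ∀ p ∈ S, p.Prime ∧ p ≠ 2) (hne : S.Nonempty) (X : ℕ) :
    (({n : ℕ | n ≤ X ∧ ¬ ∃ p ∈ S, ∃ q ∈ S, p ≠ q ∧ Splits p (-(n : ℤ)) ∧
      Splits q (-(n : ℤ))}.ncard : ℕ) : ℝ) ≤
      S.card * ((2 / 3) ^ (S.card - 1) * X + ∏ p ∈ S, (p : ℝ)) := by
  classical
  have hsub : {n : ℕ | n ≤ X ∧ ¬ ∃ p ∈ S, ∃ q ∈ S, p ≠ q ∧ Splits p (-(n : ℤ)) ∧
      Splits q (-(n : ℤ))} ⊆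
      ⋃ p₀ ∈ S, {n : ℕ | n ≤ X ∧ ∀ p ∈ S.erase p₀, ¬ Splits p (-(n : ℤ))} := by
    rintro n ⟨h1, h2⟩
    simp only [Set.mem_iUnion]
    push Not at h2
    by_cases h : ∃ p ∈ S, Splits p (-(n : ℤ))
    · obtain ⟨p, hp, hs⟩ := h
      refine ⟨p, hp, h1, fun q hq => ?_⟩
      exact h2 p hp q (Finset.mem_of_mem_erase hq) (Finset.ne_of_mem_erase hq).symm hs
    · push Not at h
      obtain ⟨p, hp⟩ := hne
      exact ⟨p, hp, h1, fun q hq => h q (Finset.mem_of_mem_erase hq)⟩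
  have hfin : ∀ p₀, {n : ℕ | n ≤ X ∧ ∀ p ∈ S.erase p₀, ¬ Splits p (-(n : ℤ))}.Finite := fun p₀ =>
    (Set.finite_Iic X).subset fun n hn => hn.1
  have h3 : {n : ℕ | n ≤ X ∧ ¬ ∃ p ∈ S, ∃ q ∈ S, p ≠ q ∧ Splits p (-(n : ℤ)) ∧
      Splits q (-(n : ℤ))}.ncard ≤
      ∑ p₀ ∈ S, {n : ℕ | n ≤ X ∧ ∀ p ∈ S.erase p₀, ¬ Splits p (-(n : ℤ))}.ncard := by
    refine (Set.ncard_le_ncard hsub ?_).trans ?_
    · exact Set.Finite.biUnion S.finite_toSet fun p _ => hfin p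
    · exact Finset.set_ncard_biUnion_le S _
  have h4 : ∀ p₀ ∈ S, (({n : ℕ | n ≤ X ∧ ∀ p ∈ S.erase p₀, ¬ Splits p (-(n : ℤ))}.ncard : ℕ) : ℝ) ≤
      (2 / 3) ^ (S.card - 1) * X + ∏ p ∈ S, (p : ℝ) := by
    intro p₀ hp₀
    refine (count_nonsplit (S.erase p₀) (fun p hp => hS p (Finset.mem_of_mem_erase hp)) X).trans ?_
    rw [Finset.card_erase_of_mem hp₀]
    have h5 : (∏ p ∈ S.erase p₀, (p : ℝ)) ≤ ∏ p ∈ S, (p : ℝ) := by
      rw [← Finset.prod_erase_mul S _ hp₀]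
      have h6 : (1 : ℝ) ≤ p₀ := by exact_mod_cast (hS p₀ hp₀).1.one_lt.le
      have h7 : (0 : ℝ) ≤ ∏ p ∈ S.erase p₀, (p : ℝ) := Finset.prod_nonneg fun _ _ => by positivity
      nlinarith
    linarith
  calc (({n : ℕ | n ≤ X ∧ ¬ ∃ p ∈ S, ∃ q ∈ S, p ≠ q ∧ Splits p (-(n : ℤ)) ∧
        Splits q (-(n : ℤ))}.ncard : ℕ) : ℝ)
      ≤ ∑ p₀ ∈ S, (({n : ℕ | n ≤ X ∧ ∀ p ∈ S.erase p₀, ¬ Splits p (-(n : ℤ))}.ncard : ℕ) : ℝ) := by
        exact_mod_cast h3
    _ ≤ ∑ _p₀ ∈ S, ((2 / 3) ^ (S.card - 1) * X + ∏ p ∈ S, (p : ℝ)) := Finset.sum_le_sum h4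
    _ = _ := by rw [Finset.sum_const, nsmul_eq_mul]

end Pool.Agent.Helper21.EQ
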