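import Pool.Agent.Helper21.EQ.B
import Pool.Agent.Helper21.EQ.C
import Pool.Agent.Helper21.EQ.E

set_option autoImplicit false

open MeasureTheory Filter UpperHalfPlane Pool.Agent.Y818.IC

namespace Pool.Agent.Helper21.EQ

/-- a special point as a special subvariety -/
def pt {n : ℕ} (D : ℤ) (hD : D < 0) (c : Fin n → ℂ) (hc : ∀ k, c k ∈ sing D) : Sub n where
  r := 0
  blk := fun _ => none
  surj := fun b => b.elim0
  c := c
  cm := fun k => ⟨D, hD, hc k⟩
  g := fun _ => 1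
  det := fun _ => by simp

theorem pt_carrier {n : ℕ} (D : ℤ) (hD : D < 0) (c : Fin n → ℂ) (hc : ∀ k, c k ∈ sing D) :
    (pt D hD c hc).carrier = {c} := by
  ext w
  constructor
  · rintro ⟨τ, h⟩
    ext k
    exact (h k).1 rfl
  · rintro rfl
    exact ⟨fun b => b.elim0, fun k => ⟨fun _ => rfl, fun b => b.elim0⟩⟩

theorem disc_tendsto {n : ℕ} (hn : 0 < n) (x : ℕ → Fin n → ℂ) (D : ℕ → ℤ) (hD : ∀ i, D i < 0)
    (hx : ∀ i k, x i k ∈ sing (D i)) (hg : Generic x) :
    Tendsto (fun i => (D i).natAbs) atTop atTop := by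
  rw [tendsto_atTop]
  intro B
  have hfin : {i | ¬ B ≤ (D i).natAbs}.Finite := by
    have h1 : {i | ¬ B ≤ (D i).natAbs} ⊆ ⋃ d ∈ (Set.Icc (-(B : ℤ)) (-1)),
        ⋃ v ∈ {v : Fin n → ℂ | ∀ k, v k ∈ sing d}, {i | x i = v ∧ ∀ k, v k ∈ sing d} := by
      intro i hi
      simp only [Set.mem_ofPred_eq, not_le] at hi
      simp only [Set.mem_iUnion]
      have := hD i
      refine ⟨D i, ⟨by omega, by omega⟩, x i, fun k => hx i k, rfl, fun k => hx i k⟩
    refine Set.Finite.subset ?_ h1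
    refine Set.Finite.biUnion (Set.finite_Icc _ _) fun d hd => ?_
    have hd0 : d < 0 := by have := hd.2; omega
    have h2 : {v : Fin n → ℂ | ∀ k, v k ∈ sing d}.Finite := by
      have := Set.Finite.pi' (fun _ : Fin n => sing_finite hd0)
      exact this
    refine Set.Finite.biUnion h2 fun v hv => ?_
    have h3 := hg (pt d hd0 v hv) (by
      rw [pt_carrier]
      intro h
      have h4 : (fun k => v k + 1) ∈ ({v} : Set (Fin n → ℂ)) := by rw [h]; trivial
      have h5 := congrFun (Set.mem_singleton_iff.1 h4) ⟨0, hn⟩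
      simp at h5)
    rw [pt_carrier] at h3
    exact h3.subset fun i hi => hi.1
  have := hfin.compl_mem_cofinite
  rw [Nat.cofinite_eq_atTop] at this
  filter_upwards [this] with i hi
  by_contra hc
  exact hi hc

instance : IsProbabilityMeasure mu := ⟨mu1.2⟩

theorem main (m : ∀ (_ : IntermediateField ℚ ℂ) (n : ℕ), Sub n → Measure (Fin n → ℂ)) :
    ∃ ω : ℕ → ℕ, Monotone ω ∧ Tendsto ω atTop atTop ∧
      ∀ F : IntermediateField ℚ ℂ, FiniteDimensional ℚ F → ∀ n : ℕ, 0 < n → Known F n (m F n) →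
        ∀ (x : ℕ → Fin n → ℂ) (D : ℕ → ℤ), (∀ i, Good (ω (D i).natAbs) (D i)) →
          (∀ i k, x i k ∈ sing (D i)) → Generic x → Equidistributed F x := by
  classical
  choose q hq1 hq2 using dense_seq
  obtain ⟨e, he⟩ := enum
  have hB : ∀ (F : IntermediateField ℚ ℂ) (n k : ℕ), ∃ B : ℕ, Known F n (m F n) →
      ∀ (D : ℤ) (x : Fin n → ℂ), Good k D → B ≤ D.natAbs → (∀ l, x l ∈ sing D) →
        ∃ Z : Sub n, Z.Strong ∧ x ∈ Z.carrier ∧
          ∀ l < k, |avg (orb F.fixingSubgroup x) (q n l) - ∫ w, q n l w ∂(m F n Z)| <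
            1 / ((k : ℝ) + 1) := by
    intro F n k
    by_cases hK : Known F n (m F n)
    · obtain ⟨B, hB⟩ := claimA hK k ((Finset.range k).image (q n)) (by
        intro f hf
        obtain ⟨l, -, rfl⟩ := Finset.mem_image.1 hf
        exact hq1 n l) (ε := 1 / ((k : ℝ) + 1)) (by positivity)
      refine ⟨B, fun _ D x hg hBD hx => ?_⟩
      obtain ⟨Z, h1, h2, h3⟩ := hB D x hg hBD hx
      exact ⟨Z, h1, h2, fun l hl => h3 _ (Finset.mem_image_of_mem _ (Finset.mem_range.2 hl))⟩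
    · exact ⟨0, fun h => absurd h hK⟩
  choose B hB using hB
  let thr : ℕ → ℕ := fun k => k + ∑ s ∈ Finset.range (k + 1), ∑ k' ∈ Finset.range (k + 1),
    B (e s).1 (e s).2 k'
  have hthr : ∀ k s, s ≤ k → B (e s).1 (e s).2 k ≤ thr k := by
    intro k s hs
    have h1 : B (e s).1 (e s).2 k ≤ ∑ k' ∈ Finset.range (k + 1), B (e s).1 (e s).2 k' :=
      Finset.single_le_sum (f := fun k' => B (e s).1 (e s).2 k') (fun _ _ => Nat.zero_le _)
        (Finset.mem_range.2 (Nat.lt_succ_self k))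
    have h2 : (∑ k' ∈ Finset.range (k + 1), B (e s).1 (e s).2 k') ≤
        ∑ s ∈ Finset.range (k + 1), ∑ k' ∈ Finset.range (k + 1), B (e s).1 (e s).2 k' :=
      Finset.single_le_sum (f := fun s => ∑ k' ∈ Finset.range (k + 1), B (e s).1 (e s).2 k')
        (fun _ _ => Nat.zero_le _) (Finset.mem_range.2 (Nat.lt_succ_of_le hs))
    exact (h1.trans h2).trans (Nat.le_add_left _ _)
  have hthrk : ∀ k, k ≤ thr k := fun k => Nat.le_add_right _ _
  let ω : ℕ → ℕ := fun N => Nat.findGreatest (fun k => thr k ≤ N) N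
  have hωm : Monotone ω := by
    intro a b hab
    exact Nat.findGreatest_mono (fun k hk => le_trans hk hab) hab
  have hωt : Tendsto ω atTop atTop := by
    rw [tendsto_atTop]
    intro k
    filter_upwards [eventually_ge_atTop (thr k)] with N hN
    exact Nat.le_findGreatest ((hthrk k).trans hN) hN
  have hωs : ∀ N, ω N ≠ 0 → thr (ω N) ≤ N := fun N h =>
    Nat.findGreatest_of_ne_zero (P := fun k => thr k ≤ N) rfl h
  refine ⟨ω, hωm, hωt, fun F hF n hn hK x D hgood hx hgen => ?_⟩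
  obtain ⟨s, hs⟩ := he F n hF
  have hD : ∀ i, D i < 0 := fun i => (hgood i).1.1
  have hDt := disc_tendsto hn x D hD hx hgen
  have hkt : Tendsto (fun i => ω (D i).natAbs) atTop atTop := hωt.comp hDt
  have hZ : ∀ i, ∃ Z : Sub n, Z.Strong ∧ x i ∈ Z.carrier ∧
      (s + 1 ≤ ω (D i).natAbs → ∀ l < ω (D i).natAbs,
        |avg (orb F.fixingSubgroup (x i)) (q n l) - ∫ w, q n l w ∂(m F n Z)| <
          1 / ((ω (D i).natAbs : ℝ) + 1)) := by
    intro i
    by_cases h : s + 1 ≤ ω (D i).natAbs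
    · have h1 : thr (ω (D i).natAbs) ≤ (D i).natAbs := hωs _ (by omega)
      have h2 : B F n (ω (D i).natAbs) ≤ (D i).natAbs := by
        have := hthr (ω (D i).natAbs) s (by omega)
        rw [hs] at this
        exact this.trans h1
      obtain ⟨Z, h3, h4, h5⟩ := hB F n _ hK (D i) (x i) (hgood i) h2 (hx i)
      exact ⟨Z, h3, h4, fun _ => h5⟩
    · exact ⟨top (D i) (hD i) (x i) (hx i), top_strong _ _ _ _,
        mem_top _ _ _ _ _ fun l => sing_j (hx i l), fun h' => absurd h' h⟩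
  choose Z hZs hZx hZa using hZ
  have hprob : ∀ i, IsProbabilityMeasure (m F n (Z i)) := fun i => hK.prob _ (hZs i)
  have hCU := hK.clozelUllmo Z hZs (fun Z' hZ' =>
    (hgen Z' hZ').subset fun i hi => hi (hZx i))
  intro f hf hfs
  rw [Metric.tendsto_nhds]
  intro ε hε
  obtain ⟨l, hl⟩ := hq2 n f hf hfs (ε / 5) (by positivity)
  have hlim := hCU (q n l) (hq1 n l).1 (hq1 n l).2
  rw [Metric.tendsto_nhds] at hlim
  obtain ⟨K0, hK0⟩ := exists_nat_gt (5 / ε)
  filter_upwards [hlim (ε / 5) (by positivity), hkt.eventually_ge_atTop (s + 1),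
    hkt.eventually_gt_atTop l, hkt.eventually_ge_atTop K0] with i h1 h2 h3 h4
  have h5 := hZa i h2 l h3
  have h6 : 1 / ((ω (D i).natAbs : ℝ) + 1) < ε / 5 := by
    have h7 : (K0 : ℝ) ≤ (ω (D i).natAbs : ℝ) := by exact_mod_cast h4
    rw [div_lt_iff₀ (by positivity)]
    have h8 : 5 / ε < (ω (D i).natAbs : ℝ) + 1 := by linarith
    rw [div_lt_iff₀ hε] at h8
    linarith
  have := hprob i
  have a1 : |avg (orb F.fixingSubgroup (x i)) f - avg (orb F.fixingSubgroup (x i)) (q n l)| ≤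
      ε / 5 := avg_close _ _ _ _ (by positivity) hl
  have a2 : |(∫ w, f w ∂(Measure.pi fun _ : Fin n => mu)) -
      ∫ w, q n l w ∂(Measure.pi fun _ : Fin n => mu)| ≤ ε / 5 :=
    int_close _ _ _ (int_cc _ f hf hfs) (int_cc _ _ (hq1 n l).1 (hq1 n l).2) _ hl
  rw [Real.dist_eq] at h1 ⊢
  have b1 := abs_le.1 a1
  have b2 := abs_le.1 a2
  have b3 := abs_lt.1 h5
  have b4 := abs_lt.1 h1
  rw [abs_lt]
  constructor <;> linarith [b1.1, b1.2, b2.1, b2.2, b3.1, b3.2, b4.1, b4.2]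

end Pool.Agent.Helper21.EQ
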