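import Pool.Agent.Helper21.EQ.L

set_option autoImplicit false

open Filter

namespace Pool.Agent.Helper21.EQ

theorem hasZero_mono {c c' : ℝ} (h : c ≤ c') {N : ℕ} (hz : HasZero c N) : HasZero c' N := by
  obtain ⟨hN, χ, β, h1, h2, h3, h4, h5, h6⟩ := hz
  refine ⟨hN, χ, β, h1, h2, h3, ?_, h5, h6⟩
  have hlog : 0 ≤ Real.log N := Real.log_natCast_nonneg N
  have : c / Real.log N ≤ c' / Real.log N := div_le_div_of_nonneg_right h hlog
  linarith

theorem good_mono {k k' : ℕ} (hk : 0 < k) (h : k ≤ k') {D : ℤ} (hg : Good k D) : Good k' D := by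
  obtain ⟨h1, ⟨p, q, h2, h3, h4, h5, h6⟩, h7⟩ := hg
  refine ⟨h1, ⟨p, q, h2, h3.trans h, h4.trans h, h5, h6⟩, fun hz => h7 (hasZero_mono ?_ hz)⟩
  have h8 : (0 : ℝ) < k := by exact_mod_cast hk
  have h9 : (k : ℝ) ≤ k' := by exact_mod_cast h
  exact one_div_le_one_div_of_le h8 h9

/-- few moduli are exceptional -/
theorem count_zero {c : ℝ}
    (hL : ∀ N N' : ℕ, N < N' → HasZero c N → HasZero c N' → N ^ 2 ≤ N') (X : ℕ) :
    {n : ℕ | n ≤ X ∧ HasZero c n}.ncard ≤ Nat.sqrt X + 2 := by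
  have hsub : {n : ℕ | n ≤ X ∧ HasZero c n} ⊆
      (Set.Iic (Nat.sqrt X)) ∪ {n : ℕ | Nat.sqrt X < n ∧ n ≤ X ∧ HasZero c n} := by
    rintro n ⟨h1, h2⟩
    by_cases h : n ≤ Nat.sqrt X
    · exact Or.inl h
    · exact Or.inr ⟨not_le.1 h, h1, h2⟩
  have h2 : {n : ℕ | Nat.sqrt X < n ∧ n ≤ X ∧ HasZero c n}.Subsingleton := by
    have key : ∀ a b : ℕ, Nat.sqrt X < a → a ≤ X → HasZero c a → b ≤ X → HasZero c b →
        ¬ a < b := by
      intro a b h1 _ h3 h4 h5 hab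
      have h6 := hL a b hab h3 h5
      have h7 : X < a ^ 2 := by
        rw [pow_two]
        exact Nat.sqrt_lt.1 h1
      omega
    rintro a ⟨h1, h3, h4⟩ b ⟨h5, h6, h7⟩
    rcases lt_trichotomy a b with h | h | h
    · exact absurd h (key a b h1 h3 h4 h6 h7)
    · exact h
    · exact absurd h (key b a h5 h6 h7 h3 h4)
  calc {n : ℕ | n ≤ X ∧ HasZero c n}.ncard
      ≤ ((Set.Iic (Nat.sqrt X)) ∪ {n : ℕ | Nat.sqrt X < n ∧ n ≤ X ∧ HasZero c n}).ncard :=
        Set.ncard_le_ncard hsub ((Set.finite_Iic _).union h2.finite)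
    _ ≤ (Set.Iic (Nat.sqrt X)).ncard + {n : ℕ | Nat.sqrt X < n ∧ n ≤ X ∧ HasZero c n}.ncard :=
        Set.ncard_union_le _ _
    _ ≤ (Nat.sqrt X + 1) + 1 := by
        refine Nat.add_le_add ?_ ?_
        · rw [← Finset.coe_Iic, Set.ncard_coe_finset, Nat.card_Iic]
        · exact (Set.ncard_le_one h2.finite).2 fun a ha b hb => h2 ha hb
    _ = _ := rfl

/-- the fundamental discriminants which are not good -/
def Bad (ω : ℕ → ℕ) (X : ℕ) : Set ℤ :=
  {D : ℤ | IsFund D ∧ D.natAbs ≤ X ∧ ¬ Good (ω D.natAbs) D}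

theorem bad_le {c : ℝ}
    (hL : ∀ N N' : ℕ, N < N' → HasZero c N → HasZero c N' → N ^ 2 ≤ N')
    (ω : ℕ → ℕ) (S : Finset ℕ) (hS : ∀ p ∈ S, p.Prime ∧ p ≠ 2) (hne : S.Nonempty)
    (k : ℕ) (hk : ∀ p ∈ S, p ≤ k) (hkc : 1 / (k : ℝ) ≤ c) (B : ℕ) (hB : ∀ N, B ≤ N → k ≤ ω N)
    (X : ℕ) :
    ((Bad ω X).ncard : ℝ) ≤
      B + (S.card * ((2 / 3) ^ (S.card - 1) * X + ∏ p ∈ S, (p : ℝ))) + (Nat.sqrt X + 2) := by
  have hkpos : 0 < k := by
    obtain ⟨p, hp⟩ := hne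
    exact (hS p hp).1.pos.trans_le (hk p hp)
  set A1 : Set ℕ := Set.Iio B
  set A2 : Set ℕ := {n : ℕ | n ≤ X ∧ ¬ ∃ p ∈ S, ∃ q ∈ S, p ≠ q ∧ Splits p (-(n : ℤ)) ∧
      Splits q (-(n : ℤ))}
  set A3 : Set ℕ := {n : ℕ | n ≤ X ∧ HasZero c n}
  have hfin : (A1 ∪ A2 ∪ A3).Finite :=
    ((Set.finite_Iio _).union ((Set.finite_Iic X).subset fun n hn => hn.1)).union
      ((Set.finite_Iic X).subset fun n hn => hn.1)
  have h1 : (Bad ω X).ncard ≤ (A1 ∪ A2 ∪ A3).ncard := by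
    refine Set.ncard_le_ncard_of_injOn (fun D : ℤ => D.natAbs) ?_ ?_ hfin
    · rintro D ⟨h1, h2, h3⟩
      have hD : -((D.natAbs : ℕ) : ℤ) = D := by
        have := h1.1
        omega
      by_cases hlt : D.natAbs < B
      · exact Or.inl (Or.inl hlt)
      · have hkω := hB _ (not_lt.1 hlt)
        have h4 : ¬ Good k D := fun h => h3 (good_mono hkpos hkω h)
        by_cases h5 : ∃ p ∈ S, ∃ q ∈ S, p ≠ q ∧ Splits p D ∧ Splits q D
        · right
          refine ⟨h2, ?_⟩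
          by_contra hz
          apply h4
          obtain ⟨p, hp, q, hq, hpq, h6, h7⟩ := h5
          exact ⟨h1, ⟨p, q, hpq, hk p hp, hk q hq, h6, h7⟩, fun h => hz (hasZero_mono hkc h)⟩
        · left; right
          exact ⟨h2, by rw [hD]; exact h5⟩
    · intro D hD D' hD' h
      have := hD.1.1
      have := hD'.1.1
      simp only at h
      omega
  have h2 : (A1 ∪ A2 ∪ A3).ncard ≤ A1.ncard + A2.ncard + A3.ncard :=
    (Set.ncard_union_le _ _).trans (Nat.add_le_add_right (Set.ncard_union_le _ _) _)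
  have h3 : A1.ncard = B := by
    rw [show A1 = ((Finset.Iio B : Finset ℕ) : Set ℕ) by simp [A1], Set.ncard_coe_finset,
      Nat.card_Iio]
  have h4 := count_bad S hS hne X
  have h5 := count_zero hL X
  have h6 : ((Bad ω X).ncard : ℝ) ≤ A1.ncard + A2.ncard + A3.ncard := by
    exact_mod_cast h1.trans h2
  have h7 : (A3.ncard : ℝ) ≤ Nat.sqrt X + 2 := by exact_mod_cast h5
  rw [h3] at h6
  linarith

theorem density (hL : Landau) (ω : ℕ → ℕ) (hω : Tendsto ω atTop atTop) :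
    Tendsto (fun X : ℕ => ((Bad ω X).ncard : ℝ) / X) atTop (nhds 0) := by
  obtain ⟨c, hc, hL⟩ := hL
  rw [Metric.tendsto_atTop]
  intro ε hε
  -- the number of primes
  have hlim : Tendsto (fun t : ℕ => (t : ℝ) * (2 / 3) ^ t) atTop (nhds 0) :=
    tendsto_self_mul_const_pow_of_lt_one (by norm_num) (by norm_num)
  obtain ⟨t, ht1, ht2⟩ := ((hlim.eventually (gt_mem_nhds (show (0 : ℝ) < ε / 4 by positivity))).and
    (eventually_ge_atTop 1)).exists
  obtain ⟨S, hS1, hS2⟩ : ∃ S : Finset ℕ, (∀ p ∈ S, p.Prime ∧ p ≠ 2) ∧ S.card = t := by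
    have h1 : ({p : ℕ | p.Prime} \ {2}).Infinite := Nat.infinite_setOfPred_prime.sdiff (Set.finite_singleton 2)
    obtain ⟨S, hS, hc⟩ := h1.exists_subset_card_eq t
    exact ⟨S, fun p hp => ⟨(hS hp).1, (hS hp).2⟩, hc⟩
  have hne : S.Nonempty := by
    rw [← Finset.card_pos, hS2]
    exact ht2
  obtain ⟨k0, hk0⟩ := exists_nat_ge (1 / c)
  set k : ℕ := k0 + 1 + ∑ p ∈ S, p with hk
  have hkS : ∀ p ∈ S, p ≤ k := by
    intro p hp
    have := Finset.single_le_sum (f := fun p : ℕ => p) (fun _ _ => Nat.zero_le _) hp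
    omega
  have hkc : 1 / (k : ℝ) ≤ c := by
    have h1 : (k0 : ℝ) + 1 ≤ k := by
      rw [hk]; push_cast
      have : (0 : ℝ) ≤ ∑ p ∈ S, (p : ℝ) := Finset.sum_nonneg fun _ _ => by positivity
      linarith
    have h2 : (0 : ℝ) < k := by
      have : (0 : ℝ) ≤ k0 := by positivity
      linarith
    rw [div_le_iff₀ h2]
    rw [div_le_iff₀ hc] at hk0
    nlinarith
  obtain ⟨B, hB⟩ := eventually_atTop.1 (hω.eventually_ge_atTop k)
  set P : ℝ := ∏ p ∈ S, (p : ℝ) with hP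
  have hP0 : 0 ≤ P := Finset.prod_nonneg fun _ _ => by positivity
  -- the bound
  have hb := fun X => bad_le hL ω S hS1 hne k hkS hkc B hB X
  rw [hS2] at hb
  have hsq : Tendsto (fun X : ℕ => (B + t * P + 2 + Nat.sqrt X : ℝ) / X) atTop (nhds 0) := by
    have h1 : Tendsto (fun X : ℕ => (B + t * P + 2 : ℝ) / X) atTop (nhds 0) :=
      tendsto_const_div_atTop_nhds_zero_nat _
    have h2 : Tendsto (fun X : ℕ => 1 / Real.sqrt X) atTop (nhds 0) := by
      have := (tendsto_inv_atTop_zero.comp (Real.tendsto_sqrt_atTop)).comp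
        (tendsto_natCast_atTop_atTop (R := ℝ))
      refine this.congr fun X => ?_
      simp
    have h3 := h1.add h2
    rw [add_zero] at h3
    refine squeeze_zero' (Eventually.of_forall fun X => by positivity) ?_ h3
    filter_upwards [eventually_gt_atTop 0] with X hX
    have hX' : (0 : ℝ) < X := by exact_mod_cast hX
    have h4 : (Nat.sqrt X : ℝ) ≤ Real.sqrt X := Real.nat_sqrt_le_real_sqrt
    have h5 : (Nat.sqrt X : ℝ) / X ≤ 1 / Real.sqrt X := by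
      rw [div_le_div_iff₀ hX' (Real.sqrt_pos.2 hX')]
      have h6 := Real.mul_self_sqrt hX'.le
      nlinarith [Real.sqrt_nonneg (X : ℝ)]
    rw [add_div]
    linarith
  obtain ⟨X0, hX0⟩ := eventually_atTop.1 (hsq.eventually (gt_mem_nhds (show (0 : ℝ) < ε / 4 by positivity)))
  refine ⟨X0 + 1, fun X hX => ?_⟩
  have hX1 : (0 : ℝ) < X := by
    have : 0 < X := by omega
    exact_mod_cast this
  rw [Real.dist_eq, sub_zero, abs_of_nonneg (by positivity), div_lt_iff₀ hX1]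
  have h1 := hX0 X (by omega)
  rw [div_lt_iff₀ hX1] at h1
  have h2 : (2 / 3 : ℝ) ^ (t - 1) = 3 / 2 * (2 / 3) ^ t := by
    obtain ⟨u, rfl⟩ : ∃ u, t = u + 1 := ⟨t - 1, by omega⟩
    rw [Nat.add_sub_cancel, pow_succ]
    ring
  have h3 := hb X
  rw [h2] at h3
  have h4 : (t : ℝ) * ((3 / 2 * (2 / 3) ^ t) * X + P) = 3 / 2 * (t * (2 / 3) ^ t) * X + t * P := by
    ring
  rw [h4] at h3
  have h5 : 3 / 2 * ((t : ℝ) * (2 / 3) ^ t) * X ≤ 3 / 2 * (ε / 4) * X := by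
    gcongr
  nlinarith [hX1, hε]

end Pool.Agent.Helper21.EQ
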